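import Mathlib
import Pool.Agent.H248R6.Values

set_option autoImplicit false
set_option linter.unusedSectionVars false

/-!
# Moving one point: linear functionals which vanish on a linear system
-/

namespace Pool.Agent.K3h98.RL

open MvPolynomial Pool.Agent.H248R5 Pool.Agent.H248R6

variable {L : Type*} [Field L] [CharZero L]

/-- A linear functional which vanishes on the system `w`, and whose values on the derivatives of the members with
respect to the coordinates of the point `k` are proportional to fixed numbers, vanishes on the system with the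
multiplicity of the point `k` lowered by one, if all leading forms occur at the point `k`. -/
theorem step3E {n : ℕ} {w : Fin n → ℕ} {P : Fin n → Fin 2 → L} {d : ℕ} {k : Fin n} {m : ℕ}
    (hk : w k = m + 1)
    (hlift : ∀ h : MvPolynomial (Fin 2) L, h.IsHomogeneous (m + 1) →
      ∃ G ∈ forms w P d, homogeneousComponent (m + 1) (tau (P k) G) = h)
    (D : Fin 2 → Derivation ℚ L L)
    (hD : ∀ a i b, D a (P i b) = if i = k ∧ b = a then 1 else 0)
    (E : MvPolynomial (Fin 3) L →ₗ[L] L)
    (h0 : ∀ G ∈ forms w P d, E G = 0) (c : Fin 2 → L)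
    (key : ∀ G ∈ forms w P d, ∃ θ : L, ∀ a, E (dG (D a) G) = c a * θ) :
    ∀ H ∈ forms (Function.update w k m) P d, E H = 0 := by
  classical
  have hex : ∀ i : ℕ, ∃ G ∈ forms w P d, i ≤ m + 1 →
      homogeneousComponent (m + 1) (tau (P k) G) = X 0 ^ i * X 1 ^ (m + 1 - i) := by
    intro i
    by_cases hi : i ≤ m + 1
    · obtain ⟨G, hG, hG'⟩ := hlift (X 0 ^ i * X 1 ^ (m + 1 - i)) (by
        have := mono_homog (L := L) i (m + 1 - i)
        rwa [Nat.add_sub_cancel' hi] at this)
      exact ⟨G, hG, fun _ => hG'⟩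
    · exact ⟨0, Submodule.zero_mem _, fun h => absurd h hi⟩
  choose G hG hG' using hex
  choose θ hθ using fun i => key (G i) (hG i)
  let H : ℕ → MvPolynomial (Fin 3) L := fun i => (-((i : L) + 1)⁻¹) • dG (D 0) (G (i + 1))
  have hHm : ∀ i, H i ∈ forms (Function.update w k m) P d := fun i =>
    Submodule.smul_mem _ _ (move hk (D 0) (hD 0) (hG (i + 1))).1
  have hne : ∀ i : ℕ, ((i : L) + 1) ≠ 0 := fun i => Nat.cast_add_one_ne_zero i
  have hHc : ∀ i, i ≤ m → homogeneousComponent m (tau (P k) (H i)) =
      X 0 ^ i * X 1 ^ (m - i) := by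
    intro i hi
    have h2 := (move hk (D 0) (hD 0) (hG (i + 1))).2
    rw [hG' (i + 1) (by omega), pd0] at h2
    have h3 : m + 1 - (i + 1) = m - i := by omega
    rw [h3] at h2
    simp only [H]
    rw [map_smul, map_smul, h2, smul_neg, ← C_mul', ← mul_assoc, ← C_mul]
    have h4 : (-((i : L) + 1)⁻¹) * ((i : L) + 1) = -1 := by
      rw [neg_mul, inv_mul_cancel₀ (hne i)]
    rw [h4, C_neg, C_1]
    ring
  -- the values
  let x : ℕ → L := fun i => E (H i)
  have e0 : ∀ i : ℕ, ((i : L) + 1) * x i = - (c 0 * θ (i + 1)) := by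
    intro i
    simp only [x, H]
    rw [map_smul, smul_eq_mul, hθ (i + 1) 0]
    have := hne i
    field_simp
  have e1 : ∀ i : ℕ, i ≤ m → c 1 * θ i + ((m + 1 - i : ℕ) : L) * x i = 0 := by
    intro i hi
    have h2 := move hk (D 1) (hD 1) (hG i)
    obtain ⟨j, hj⟩ : ∃ j, m = i + j := ⟨m - i, by omega⟩
    have h3 : m + 1 - i = j + 1 := by omega
    have h4 : m - i = j := by omega
    have h5 : homogeneousComponent m (tau (P k) (dG (D 1) (G i) + ((j : L) + 1) • H i)) = 0 := by
      rw [map_add, map_add, map_smul, map_smul, h2.2, hG' i (by omega), hHc i hi, h3, pd1, h4,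
        ← C_mul']
      ring
    have h6 := h0 _ (back hk (Submodule.add_mem _ h2.1 (Submodule.smul_mem _ _ (hHm i))) h5)
    rw [map_add, map_smul, smul_eq_mul, hθ i 1] at h6
    rw [h3]
    push_cast
    exact h6
  have e2 : c 0 * θ 0 = 0 := by
    have h2 := move hk (D 0) (hD 0) (hG 0)
    rw [hG' 0 (by omega), pd00, neg_zero] at h2
    rw [← hθ 0 0]
    exact h0 _ (back hk h2.1 h2.2)
  have hx : ∀ i, i ≤ m → x i = 0 := by
    by_cases hc : c 0 = 0
    · intro i _
      have h2 := e0 i
      rw [hc, zero_mul, neg_zero] at h2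
      exact (mul_eq_zero.1 h2).resolve_left (hne i)
    · have h3 : ∀ i, i ≤ m → θ i = 0 ∧ x i = 0 := by
        intro i
        induction i with
        | zero =>
          intro _
          have h4 : θ 0 = 0 := (mul_eq_zero.1 e2).resolve_left hc
          have h5 := e1 0 (Nat.zero_le _)
          rw [h4, mul_zero, zero_add] at h5
          refine ⟨h4, (mul_eq_zero.1 h5).resolve_left ?_⟩
          exact Nat.cast_ne_zero.2 (by omega)
        | succ i ih =>
          intro hi
          have h4 := e0 i
          rw [(ih (by omega)).2, mul_zero] at h4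
          have h6 : θ (i + 1) = 0 := by
            have h7 : c 0 * θ (i + 1) = 0 := by linear_combination h4
            exact (mul_eq_zero.1 h7).resolve_left hc
          have h5 := e1 (i + 1) hi
          rw [h6, mul_zero, zero_add] at h5
          refine ⟨h6, (mul_eq_zero.1 h5).resolve_left ?_⟩
          exact Nat.cast_ne_zero.2 (by omega)
      exact fun i hi => (h3 i hi).2
  intro H0 hH0
  set h := homogeneousComponent m (tau (P k) H0) with hh
  have hhom : h.IsHomogeneous m := homogeneousComponent_isHomogeneous _ _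
  have hsup : ∀ s ∈ h.support, s 0 + s 1 = m := by
    intro s hs
    have := hhom (mem_support_iff.1 hs)
    rw [Finsupp.weight_apply, Finsupp.sum_fintype _ _ (fun i => by simp), Fin.sum_univ_two] at this
    simpa using this
  have hsum : homogeneousComponent m (tau (P k) (H0 - ∑ s ∈ h.support, coeff s h • H (s 0)))
      = 0 := by
    rw [map_sub, map_sub, map_sum, map_sum, ← hh, sub_eq_zero]
    conv_lhs => rw [h.as_sum]
    refine Finset.sum_congr rfl fun s hs => ?_
    have h2 := hsup s hs
    rw [map_smul, map_smul, hHc (s 0) (by omega), monomial_eq,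
      Finsupp.prod_fintype _ _ (fun i => by simp), Fin.prod_univ_two, C_mul']
    have h3 : m - s 0 = s 1 := by omega
    rw [h3]
  have h2 := h0 _ (back hk (Submodule.sub_mem _ hH0 (Submodule.sum_mem _ fun s _ =>
    Submodule.smul_mem _ _ (hHm (s 0)))) hsum)
  rw [map_sub, map_sum, sub_eq_zero] at h2
  rw [h2]
  refine Finset.sum_eq_zero fun s hs => ?_
  rw [map_smul, smul_eq_mul]
  have h3 : E (H (s 0)) = 0 := hx (s 0) (by have := hsup s hs; omega)
  rw [h3, mul_zero]

/-- The same without a condition on the leading forms: one member is enough if the partial derivatives of its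
leading form span. -/
theorem step3B {n : ℕ} {w : Fin n → ℕ} {P : Fin n → Fin 2 → L} {d : ℕ} {k : Fin n} {m : ℕ}
    (hk : w k = m + 1) (D : Fin 2 → Derivation ℚ L L)
    (hD : ∀ a i b, D a (P i b) = if i = k ∧ b = a then 1 else 0)
    (E : MvPolynomial (Fin 3) L →ₗ[L] L)
    (h0 : ∀ G ∈ forms w P d, E G = 0) {G : MvPolynomial (Fin 3) L} (hG : G ∈ forms w P d)
    (hE : ∀ a, E (dG (D a) G) = 0)
    (hspan : ∀ h : MvPolynomial (Fin 2) L, h.IsHomogeneous m →
      ∃ α : Fin 2 → L, h = ∑ a, α a • pderiv a (homogeneousComponent (m + 1) (tau (P k) G))) :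
    ∀ H ∈ forms (Function.update w k m) P d, E H = 0 := by
  classical
  intro H hH
  obtain ⟨α, hα⟩ := hspan (homogeneousComponent m (tau (P k) H))
    (homogeneousComponent_isHomogeneous _ _)
  have h1 := fun a => move hk (D a) (hD a) hG
  have h2 : H + ∑ a, α a • dG (D a) G ∈ forms (Function.update w k m) P d :=
    Submodule.add_mem _ hH (Submodule.sum_mem _ fun a _ => Submodule.smul_mem _ _ (h1 a).1)
  have h3 : homogeneousComponent m (tau (P k) (H + ∑ a, α a • dG (D a) G)) = 0 := by
    rw [map_add, map_add, map_sum, map_sum, hα, ← Finset.sum_add_distrib]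
    refine Finset.sum_eq_zero fun a _ => ?_
    rw [map_smul, map_smul, (h1 a).2, smul_neg, add_neg_cancel]
  have h4 := h0 _ (back hk h2 h3)
  rw [map_add, map_sum, Finset.sum_eq_zero (fun a _ => by rw [map_smul, hE a, smul_zero]),
    add_zero] at h4
  exact h4

/-- The system lowered on a set of points is killed by a functional if the systems lowered at one of the
points are. -/
theorem step4E {n : ℕ} {w : Fin n → ℕ} {P : Fin n → Fin 2 → L} {d : ℕ} {S : Finset (Fin n)}
    (hsurj : Function.Surjective (ev w P d)) (E : MvPolynomial (Fin 3) L →ₗ[L] L)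
    (h0 : ∀ G ∈ forms w P d, E G = 0)
    (h1 : ∀ k ∈ S, ∀ H ∈ forms (Function.update w k (w k - 1)) P d, E H = 0) :
    ∀ G ∈ forms (low w S) P d, E G = 0 := by
  classical
  intro G hG
  obtain ⟨hG1, hG2⟩ := mem_forms.1 hG
  have hex : ∀ k, ∃ H : MvPolynomial (Fin 3) L, H.IsHomogeneous d ∧
      tau (P k) H - tau (P k) G ∈ (idealOfVars (Fin 2) L) ^ (w k) ∧
      ∀ i, i ≠ k → tau (P i) H ∈ (idealOfVars (Fin 2) L) ^ (w i) := by
    intro k
    obtain ⟨⟨H, hH⟩, hHy⟩ := hsurj (Function.update (0 : ∀ i, Quo L (w i)) k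
      (Ideal.Quotient.mk ((idealOfVars (Fin 2) L) ^ (w k)) (tau (P k) G)))
    refine ⟨H, hH, ?_, fun i hi => ?_⟩
    · have h2 := congrFun hHy k
      rw [ev_apply, Function.update_self] at h2
      exact Ideal.Quotient.eq.1 h2
    · have h2 := congrFun hHy i
      rw [ev_apply, Function.update_of_ne hi] at h2
      exact Ideal.Quotient.eq_zero_iff_mem.1 h2
  choose H hH1 hH2 hH3 using hex
  have h2 : ∀ k ∈ S, E (H k) = 0 := by
    intro k hk
    refine h1 k hk _ (mem_forms.2 ⟨hH1 k, fun i => ?_⟩)
    by_cases hi : i = k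
    · subst hi
      rw [Function.update_self]
      have h3 := hG2 i
      unfold low at h3
      rw [if_pos hk] at h3
      have h4 := Ideal.add_mem _ h3 (Ideal.pow_le_pow_right (Nat.sub_le (w i) 1) (hH2 i))
      rwa [add_sub_cancel] at h4
    · rw [Function.update_of_ne hi]
      exact hH3 k i hi
  have h3 : E (G - ∑ k ∈ S, H k) = 0 := by
    refine h0 _ (mem_forms.2 ⟨hG1.sub (Submodule.sum_mem (homogeneousSubmodule (Fin 3) L d)
      fun k _ => hH1 k), fun i => ?_⟩)
    rw [map_sub, map_sum]
    by_cases hi : i ∈ S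
    · rw [← Finset.add_sum_erase _ _ hi]
      have h4 : tau (P i) G - (tau (P i) (H i) + ∑ x ∈ S.erase i, tau (P i) (H x)) =
          -(tau (P i) (H i) - tau (P i) G) - ∑ x ∈ S.erase i, tau (P i) (H x) := by ring
      rw [h4]
      refine Ideal.sub_mem _ (Ideal.neg_mem_iff _ |>.2 (hH2 i)) (Ideal.sum_mem _ fun x hx => ?_)
      exact hH3 x i (Finset.ne_of_mem_erase hx).symm
    · refine Ideal.sub_mem _ ?_ (Ideal.sum_mem _ fun x hx => ?_)
      · have h5 := hG2 i
        unfold low at h5
        rwa [if_neg hi] at h5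
      · exact hH3 x i (fun h => hi (h ▸ hx))
  rw [map_sub, map_sum, Finset.sum_eq_zero h2, sub_zero] at h3
  exact h3

end Pool.Agent.K3h98.RL
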