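import Mathlib
import Pool.Agent.H248R6.Der
import Pool.Agent.H248R6.Main
import Pool.Agent.K3h98.RL.Step

set_option autoImplicit false

/-!
# Base point freeness from smoothness with one raised multiplicity
-/

namespace Pool.Agent.K3h98.RL

open MvPolynomial Pool.Agent.H248R5 Pool.Agent.H248R6

/-- The cross product of two vectors orthogonal to `η ≠ 0` is a multiple of `η`. -/
theorem cross_mul {L : Type*} [Field L] (q ξ η : Fin 3 → L) (hη : η ≠ 0)
    (h1 : ∑ b, q b * η b = 0) (h2 : ∑ b, η b * ξ b = 0) :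
    ∃ c : L, q 1 * ξ 2 - q 2 * ξ 1 = c * η 0 ∧ q 2 * ξ 0 - q 0 * ξ 2 = c * η 1 ∧
      q 0 * ξ 1 - q 1 * ξ 0 = c * η 2 := by
  rw [Fin.sum_univ_three] at h1 h2
  have h01 : (q 1 * ξ 2 - q 2 * ξ 1) * η 1 = (q 2 * ξ 0 - q 0 * ξ 2) * η 0 := by
    linear_combination ξ 2 * h1 - q 2 * h2
  have h02 : (q 1 * ξ 2 - q 2 * ξ 1) * η 2 = (q 0 * ξ 1 - q 1 * ξ 0) * η 0 := by
    linear_combination q 1 * h2 - ξ 1 * h1
  have h12 : (q 2 * ξ 0 - q 0 * ξ 2) * η 2 = (q 0 * ξ 1 - q 1 * ξ 0) * η 1 := by
    linear_combination ξ 0 * h1 - q 0 * h2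
  by_cases e0 : η 0 = 0
  · by_cases e1 : η 1 = 0
    · have e2 : η 2 ≠ 0 := by
        intro e2
        apply hη
        funext i
        fin_cases i
        · exact e0
        · exact e1
        · exact e2
      refine ⟨(q 0 * ξ 1 - q 1 * ξ 0) / η 2, ?_, ?_, ?_⟩
      · rw [div_mul_eq_mul_div, eq_div_iff e2]
        linear_combination h02
      · rw [div_mul_eq_mul_div, eq_div_iff e2]
        linear_combination h12
      · rw [div_mul_cancel₀ _ e2]
    · refine ⟨(q 2 * ξ 0 - q 0 * ξ 2) / η 1, ?_, ?_, ?_⟩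
      · rw [div_mul_eq_mul_div, eq_div_iff e1]
        linear_combination h01
      · rw [div_mul_cancel₀ _ e1]
      · rw [div_mul_eq_mul_div, eq_div_iff e1]
        linear_combination -h12
  · refine ⟨(q 1 * ξ 2 - q 2 * ξ 1) / η 0, ?_, ?_, ?_⟩
    · rw [div_mul_cancel₀ _ e0]
    · rw [div_mul_eq_mul_div, eq_div_iff e0]
      linear_combination -h01
    · rw [div_mul_eq_mul_div, eq_div_iff e0]
      linear_combination -h02

/-- The pairings of `y ⊥ q` with vectors `ξ` such that `q × ξ = c η`. -/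
theorem pair_mul {L : Type*} [Field L] (q η y : Fin 3 → L) (hq : q ≠ 0)
    (hy : ∑ b, q b * y b = 0) :
    ∃ θ : L, ∀ (ξ : Fin 3 → L) (c : L), q 1 * ξ 2 - q 2 * ξ 1 = c * η 0 →
      q 2 * ξ 0 - q 0 * ξ 2 = c * η 1 → q 0 * ξ 1 - q 1 * ξ 0 = c * η 2 →
      ∑ b, y b * ξ b = c * θ := by
  rw [Fin.sum_univ_three] at hy
  by_cases e0 : q 0 = 0
  · by_cases e1 : q 1 = 0
    · have e2 : q 2 ≠ 0 := by
        intro e2
        apply hq
        funext i
        fin_cases i
        · exact e0
        · exact e1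
        · exact e2
      refine ⟨(y 0 * η 1 - y 1 * η 0) / q 2, fun ξ c h0 h1 h2 => ?_⟩
      rw [Fin.sum_univ_three, ← mul_div_assoc, eq_div_iff e2]
      linear_combination ξ 2 * hy + y 0 * h1 - y 1 * h0
    · refine ⟨(y 2 * η 0 - y 0 * η 2) / q 1, fun ξ c h0 h1 h2 => ?_⟩
      rw [Fin.sum_univ_three, ← mul_div_assoc, eq_div_iff e1]
      linear_combination ξ 1 * hy + y 2 * h0 - y 0 * h2
  · refine ⟨(y 1 * η 2 - y 2 * η 1) / q 0, fun ξ c h0 h1 h2 => ?_⟩
    rw [Fin.sum_univ_three, ← mul_div_assoc, eq_div_iff e0]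
    linear_combination ξ 0 * hy + y 1 * h2 - y 2 * h1

theorem euler {L : Type*} [Field L] {d : ℕ} {G : MvPolynomial (Fin 3) L} (hG : G.IsHomogeneous d)
    {q : Fin 3 → L} (h : eval q G = 0) : ∑ b, q b * eval q (pderiv b G) = 0 := by
  have h1 := congrArg (eval q) hG.sum_X_mul_pderiv
  rw [map_sum, map_nsmul, h, smul_zero] at h1
  rw [← h1]
  exact Finset.sum_congr rfl fun c _ => by rw [map_mul, eval_X]

theorem forms_le {L : Type*} [Field L] {n : ℕ} {w u : Fin n → ℕ} {P : Fin n → Fin 2 → L} {d : ℕ}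
    (h : ∀ i, u i ≤ w i) : forms w P d ≤ forms u P d := by
  intro G hG
  obtain ⟨h1, h2⟩ := mem_forms.1 hG
  exact mem_forms.2 ⟨h1, fun i => Ideal.pow_le_pow_right (h i) (h2 i)⟩

theorem le_upd {n : ℕ} (u : Fin n → ℕ) (k : Fin n) (i : Fin n) :
    u i ≤ Function.update u k (u k + 1) i := by
  classical
  by_cases hi : i = k
  · subst hi
    rw [Function.update_self]
    omega
  · rw [Function.update_of_ne hi]

/-- The derivations moving one point. -/
theorem exists_move {L : Type*} [Field L] [CharZero L] {n : ℕ} {P : Fin n → Fin 2 → L}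
    (hP : AlgebraicIndependent ℚ (fun ij : Fin n × Fin 2 => P ij.1 ij.2)) (k : Fin n) :
    ∃ D : Fin 2 → Derivation ℚ L L, ∀ a i b, D a (P i b) = if i = k ∧ b = a then 1 else 0 := by
  classical
  choose Dk hDk using fun a : Fin 2 => exists_der _ hP (k, a)
  refine ⟨Dk, fun a i c => ?_⟩
  have h3 := hDk a (i, c)
  split_ifs with hic
  · exact h3.1 (by rw [hic.1, hic.2])
  · refine h3.2 (fun h4 => hic ?_)
    exact ⟨(congrArg Prod.fst h4).symm, (congrArg Prod.snd h4).symm⟩

/-- **Base point freeness**: if no point `q` is singular on all members of the systems with one raised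
multiplicity, and the conditions are independent, then the system has no base point different from the assigned
points. -/
theorem bpf_point {L : Type*} [Field L] [CharZero L] {n e : ℕ} {u : Fin n → ℕ}
    {P : Fin n → Fin 2 → L}
    (hP : AlgebraicIndependent ℚ (fun ij : Fin n × Fin 2 => P ij.1 ij.2))
    (hsurj : Function.Surjective (ev u P (e + 1)))
    (hup : ∀ k, 0 < u k → Function.Surjective (ev (Function.update u k (u k + 1)) P (e + 1)))
    (hlow : Function.Surjective (ev (fun i => u i - 1) P e)) (q : Fin 3 → L) (hq : q ≠ 0)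
    (hqP : ∀ i, ¬ ∃ c : L, q = c • (![P i 0, P i 1, 1] : Fin 3 → L))
    (hns : ∀ k, 0 < u k → ∃ F ∈ forms (Function.update u k (u k + 1)) P (e + 1),
      eval q F ≠ 0 ∨ ∃ a, eval q (pderiv a F) ≠ 0) :
    ∃ G ∈ forms u P (e + 1), eval q G ≠ 0 := by
  classical
  by_contra hcon
  push Not at hcon
  obtain ⟨E, hE⟩ : ∃ E : MvPolynomial (Fin 3) L →ₗ[L] L, ∀ G, E G = eval q G :=
    ⟨(aeval q : MvPolynomial (Fin 3) L →ₐ[L] L).toLinearMap, fun G => by
      change aeval q G = eval q G
      rw [aeval_eq_eval]⟩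
  have f0 : ∀ G ∈ forms u P (e + 1), E G = 0 := fun G hG => by rw [hE]; exact hcon G hG
  have f2 : ∀ k ∈ Finset.univ.filter (fun k => 0 < u k),
      ∀ H ∈ forms (Function.update u k (u k - 1)) P (e + 1), E H = 0 := by
    intro k hk
    have hk0 : 0 < u k := (Finset.mem_filter.1 hk).2
    obtain ⟨m, hm⟩ : ∃ m, u k = m + 1 := ⟨u k - 1, by omega⟩
    obtain ⟨D, hD⟩ := exists_move hP k
    obtain ⟨F, hF, hFq⟩ := hns k hk0
    have hFu : F ∈ forms u P (e + 1) := forms_le (le_upd u k) hF
    have hF0 : eval q F = 0 := hcon F hFu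
    have hη : (fun b => eval q (pderiv b F)) ≠ 0 := by
      rcases hFq with h | ⟨a, ha⟩
      · exact absurd hF0 h
      · exact fun h => ha (congrFun h a)
    have hDF : ∀ a, eval q (dG (D a) F) = 0 := by
      intro a
      have h1 := (move (w := Function.update u k (u k + 1)) (m := u k)
        (by rw [Function.update_self]) (D a) (hD a) hF).1
      rw [Function.update_idem, Function.update_eq_self] at h1
      exact hcon _ h1
    have hsum : ∀ a, ∑ b, eval q (pderiv b F) * D a (q b) = 0 := by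
      intro a
      have h1 := der_eval (D a) q F
      rw [hF0, map_zero, hDF a, zero_add] at h1
      exact h1.symm
    choose c hc using fun a => cross_mul q (fun b => D a (q b)) (fun b => eval q (pderiv b F)) hη
      (euler (mem_forms.1 hF).1 hF0) (hsum a)
    have key : ∀ G ∈ forms u P (e + 1), ∃ θ : L, ∀ a, E (dG (D a) G) = c a * θ := by
      intro G hG
      obtain ⟨θ, hθ⟩ := pair_mul q (fun b => eval q (pderiv b F)) (fun b => eval q (pderiv b G)) hq
        (euler (mem_forms.1 hG).1 (hcon G hG))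
      refine ⟨-θ, fun a => ?_⟩
      have h1 := der_eval (D a) q G
      rw [hcon G hG, map_zero, hθ _ (c a) (hc a).1 (hc a).2.1 (hc a).2.2] at h1
      rw [hE]
      linear_combination -h1
    have h5 := step3E hm (fun h hh => lift hm (by
      have := hup k hk0
      rwa [hm] at this) hh) D hD E f0 c key
    have h6 : u k - 1 = m := by omega
    rw [h6]
    exact h5
  have f3 := step4E (S := Finset.univ.filter (fun k => 0 < u k)) hsurj E f0 f2
  have hlw : low u (Finset.univ.filter (fun k => 0 < u k)) = fun i => u i - 1 := by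
    funext i
    unfold low
    by_cases hi : 0 < u i
    · rw [if_pos (Finset.mem_filter.2 ⟨Finset.mem_univ i, hi⟩)]
    · rw [if_neg]
      · omega
      · intro h
        exact hi (Finset.mem_filter.1 h).2
  rw [hlw] at f3
  obtain ⟨G, hG, hG'⟩ := bpf hlow q hq (fun i _ => hqP i)
  rw [← hE] at hG'
  exact hG' (f3 G hG)

end Pool.Agent.K3h98.RL
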