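import Mathlib
import Pool.Agent.H248R6.Elim
import Pool.Agent.H248R6.Rank
import Pool.Agent.K3h98.RL.Bpf

set_option autoImplicit false

/-!
# Smoothness of the general member by lowering some of the multiplicities
-/

namespace Pool.Agent.K3h98.RL

open MvPolynomial Pool.Agent.H248R5 Pool.Agent.H248R6

/-- The partial derivatives of the leading form of `G` at the point `k` span the forms of degree `w k - 1`. -/
def Spread {K : Type*} [Field K] {n : ℕ} (w : Fin n → ℕ) (P : Fin n → Fin 2 → K) (k : Fin n)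
    (G : MvPolynomial (Fin 3) K) : Prop :=
  ∀ h : MvPolynomial (Fin 2) K, h.IsHomogeneous (w k - 1) →
    ∃ α : Fin 2 → K, h = ∑ a, α a • pderiv a (homogeneousComponent (w k) (tau (P k) G))

/-- The value of the leading form as a functional. -/
theorem exists_lead {K : Type*} [Field K] (p : Fin 2 → K) (m : ℕ) (v : Fin 2 → K) :
    ∃ E : MvPolynomial (Fin 3) K →ₗ[K] K,
      ∀ G, E G = eval v (homogeneousComponent m (tau p G)) := by
  refine ⟨(aeval v : MvPolynomial (Fin 2) K →ₐ[K] K).toLinearMap ∘ₗ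
    (homogeneousComponent m : MvPolynomial (Fin 2) K →ₗ[K] MvPolynomial (Fin 2) K) ∘ₗ
      (tau p).toLinearMap, fun G => ?_⟩
  change aeval v (homogeneousComponent m (tau p G)) = _
  rw [aeval_eq_eval]

theorem exists_ev {K : Type*} [Field K] (q : Fin 3 → K) :
    ∃ E : MvPolynomial (Fin 3) K →ₗ[K] K, ∀ G, E G = eval q G :=
  ⟨(aeval q : MvPolynomial (Fin 3) K →ₐ[K] K).toLinearMap, fun G => by
    change aeval q G = eval q G
    rw [aeval_eq_eval]⟩

/-- Rank at most one, over the ground field, outside of a hypersurface. -/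
theorem rank_field {K : Type} [Field K] [CharZero K] {N d : ℕ}
    (b : Fin N → MvPolynomial (Fin 3) K) (hb : ∀ j, (b j).IsHomogeneous d) :
    ∃ Φ : MvPolynomial (Fin N) K, Φ ≠ 0 ∧ ∀ t : Fin N → K, eval t Φ ≠ 0 → ∀ Q : Fin 3 → K, Q ≠ 0 →
      eval Q (∑ i, t i • b i) = 0 → (∀ a, eval Q (pderiv a (∑ i, t i • b i)) = 0) →
        (∀ j, eval Q (b j) = 0) ∧
        ∃ η : Fin 3 → K, ∀ j, ∃ θ : K, ∀ a, eval Q (pderiv a (b j)) = θ * η a := by
  classical
  obtain ⟨Φ1, hΦ1, h1⟩ := bertini b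
  let h : Fin 3 × Fin N × Fin N × Fin 3 × Fin 3 → MvPolynomial (Fin 3) K := fun x =>
    X x.1 * (pderiv x.2.2.2.1 (b x.2.1) * pderiv x.2.2.2.2 (b x.2.2.1) -
      pderiv x.2.2.2.2 (b x.2.1) * pderiv x.2.2.2.1 (b x.2.2.1))
  have hel := fun x => elim b (h x) (by
    intro L _ _ t D hD q hs1 hs2
    simp only [h, map_mul, map_sub, aeval_X]
    by_cases hq : q = 0
    · rw [hq, Pi.zero_apply, zero_mul]
    · have hbq : ∀ j, aeval q (b j) = 0 := fun j => core b t D hD q hs1 hs2 j
      obtain ⟨η, hη⟩ := rank_one b hb t D hD q hq hs2 hbq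
      choose θ hθ using hη
      rw [hθ, hθ, hθ, hθ]
      ring)
  choose Φ2 hΦ2 h2 using hel
  refine ⟨Φ1 * ∏ x, Φ2 x, mul_ne_zero hΦ1 (Finset.prod_ne_zero_iff.2 fun x _ => hΦ2 x),
    fun t ht Q hQ hQ1 hQ2 => ?_⟩
  rw [map_mul, map_prod] at ht
  have ht1 := left_ne_zero_of_mul ht
  have ht2 : ∀ x, eval t (Φ2 x) ≠ 0 := fun x =>
    Finset.prod_ne_zero_iff.1 (right_ne_zero_of_mul ht) x (Finset.mem_univ x)
  obtain ⟨c, hc⟩ : ∃ c, Q c ≠ 0 := by
    by_contra hcon
    push Not at hcon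
    exact hQ (funext hcon)
  refine ⟨h1 t ht1 Q hQ1 hQ2, ?_⟩
  have hmin : ∀ j j' a a', eval Q (pderiv a (b j)) * eval Q (pderiv a' (b j')) =
      eval Q (pderiv a' (b j)) * eval Q (pderiv a (b j')) := by
    intro j j' a a'
    have h3 := h2 (c, j, j', a, a') t (ht2 _) Q hQ1 hQ2
    simp only [h, map_mul, map_sub, eval_X] at h3
    exact sub_eq_zero.1 ((mul_eq_zero.1 h3).resolve_left hc)
  by_cases hex : ∃ j0 a0, eval Q (pderiv a0 (b j0)) ≠ 0
  · obtain ⟨j0, a0, h0⟩ := hex
    refine ⟨fun a => eval Q (pderiv a (b j0)), fun j =>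
      ⟨eval Q (pderiv a0 (b j)) / eval Q (pderiv a0 (b j0)), fun a => ?_⟩⟩
    rw [div_mul_eq_mul_div, eq_div_iff h0]
    exact hmin j j0 a a0
  · push Not at hex
    exact ⟨0, fun j => ⟨0, fun a => by rw [hex j a, zero_mul]⟩⟩

/-- The leading forms: the derivative of the value at a moving direction. -/
theorem lead_der {K : Type*} [Field K] [CharZero K] {n : ℕ} {P : Fin n → Fin 2 → K}
    {k i : Fin n} (hki : i ≠ k) {a : Fin 2} (D : Derivation ℚ K K)
    (hD : ∀ i b, D (P i b) = if i = k ∧ b = a then 1 else 0) (m : ℕ) (v : Fin 2 → K)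
    (G : MvPolynomial (Fin 3) K) (hG : eval v (homogeneousComponent m (tau (P i) G)) = 0) :
    eval v (homogeneousComponent m (tau (P i) (dG D G))) =
      -∑ b, eval v (pderiv b (homogeneousComponent m (tau (P i) G))) * D (v b) := by
  have h1 : tau (P i) (dG D G) = dG D (tau (P i) G) := by
    rw [tau_dG, Finset.sum_eq_zero, sub_zero]
    intro b _
    rw [hD, if_neg (fun h => hki h.1), C_0, zero_mul]
  have h2 := der_eval D v (homogeneousComponent m (tau (P i) G))
  rw [hG, map_zero] at h2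
  rw [h1, hc_dG]
  linear_combination -h2

/-- In two variables the gradients at a common zero are proportional to a fixed vector. -/
theorem grad_two {K : Type*} [Field K] {m : ℕ} (v ξ : Fin 2 → K) (hv : v ≠ 0)
    {g : MvPolynomial (Fin 2) K} (hg : g.IsHomogeneous m) (h0 : eval v g = 0) :
    ∃ θ : K, ∑ b, eval v (pderiv b g) * ξ b = (v 0 * ξ 1 - v 1 * ξ 0) * θ ∧
      ∀ ξ' : Fin 2 → K, ∑ b, eval v (pderiv b g) * ξ' b = (v 0 * ξ' 1 - v 1 * ξ' 0) * θ := by
  have h1 := congrArg (eval v) hg.sum_X_mul_pderiv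
  rw [map_sum, map_nsmul, h0, smul_zero, Fin.sum_univ_two, map_mul, map_mul, eval_X, eval_X] at h1
  have key : ∃ θ : K, ∀ ξ' : Fin 2 → K,
      ∑ b, eval v (pderiv b g) * ξ' b = (v 0 * ξ' 1 - v 1 * ξ' 0) * θ := by
    by_cases e0 : v 0 = 0
    · have e1 : v 1 ≠ 0 := by
        intro e1
        apply hv
        funext i
        fin_cases i
        · exact e0
        · exact e1
      refine ⟨-(eval v (pderiv 0 g) / v 1), fun ξ' => ?_⟩
      rw [Fin.sum_univ_two]
      field_simp
      linear_combination ξ' 1 * h1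
    · refine ⟨eval v (pderiv 1 g) / v 0, fun ξ' => ?_⟩
      rw [Fin.sum_univ_two]
      field_simp
      linear_combination ξ' 0 * h1
  obtain ⟨θ, hθ⟩ := key
  exact ⟨θ, hθ ξ, hθ⟩

/-- **Smoothness of the general member.** `S` is a set of points at which the multiplicities may be lowered: all
leading forms occur at the point, or the partial derivatives of the leading form of the general member span. The
lowered system does not vanish at a singular point of the general member, nor in a direction at a point outside of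
`S`. -/
theorem general_main' {K : Type} [Field K] [CharZero K] {n e : ℕ} {w : Fin n → ℕ}
    {P : Fin n → Fin 2 → K}
    (hP : AlgebraicIndependent ℚ (fun ij : Fin n × Fin 2 => P ij.1 ij.2)) (S : Finset (Fin n))
    (hsurj : Function.Surjective (ev w P (e + 1))) (A : Fin n → Prop)
    (hA : ∀ k, A k → Function.Surjective (ev (Function.update w k (w k + 1)) P (e + 1)))
    (hS : ∀ k ∈ S, 0 < w k ∧ (A k ∨ GeneralMember (forms w P (e + 1)) (Spread w P k)))
    (hbp : ∀ q : Fin 3 → K, q ≠ 0 → (∀ i, ¬ ∃ c : K, q = c • (![P i 0, P i 1, 1] : Fin 3 → K)) →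
      ∀ G ∈ forms w P (e + 1),
      (∀ k ∈ S, A k ∨ Spread w P k G) → eval q G = 0 → (∀ a, eval q (pderiv a G) = 0) →
      (∀ F ∈ forms w P (e + 1), eval q F = 0) →
      (∃ η : Fin 3 → K, ∀ F ∈ forms w P (e + 1), ∃ θ : K, ∀ a, eval q (pderiv a F) = θ * η a) →
      (∀ F ∈ forms (low w S) P (e + 1), eval q F = 0) → False)
    (hfree : ∀ i, i ∉ S → ∀ v : Fin 2 → K, v ≠ 0 → ∃ G ∈ forms (low w S) P (e + 1),
      eval v (homogeneousComponent (w i) (tau (P i) G)) ≠ 0) :
    GeneralMember (forms w P (e + 1)) (SmoothMember w P) := by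
  classical
  intro N b
  have hbd : ∀ j, (b j : MvPolynomial (Fin 3) K).IsHomogeneous (e + 1) :=
    fun j => (mem_forms.1 (b j).2).1
  obtain ⟨Φ1, hΦ1, h1⟩ := rank_field (fun j => (b j : MvPolynomial (Fin 3) K)) hbd
  have hb := fun i => bertini (fun j => homogeneousComponent (w i)
    (tau (P i) (b j : MvPolynomial (Fin 3) K)))
  choose Φ hΦ hΦ' using hb
  have hsp : ∀ k, ∃ Ψ : MvPolynomial (Fin N) K, Ψ ≠ 0 ∧ ∀ t : Fin N → K, eval t Ψ ≠ 0 → k ∈ S →
      (A k ∨ Spread w P k (∑ j, t j • (b j : MvPolynomial (Fin 3) K))) := by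
    intro k
    by_cases hk : k ∈ S
    · rcases (hS k hk).2 with h | h
      · exact ⟨1, one_ne_zero, fun _ _ _ => Or.inl h⟩
      · obtain ⟨Ψ, hΨ, hΨ'⟩ := h N b
        exact ⟨Ψ, hΨ, fun t ht _ => Or.inr (hΨ' t ht)⟩
    · exact ⟨1, one_ne_zero, fun _ _ h => absurd h hk⟩
  choose Ψ hΨ hΨ' using hsp
  refine ⟨Φ1 * (∏ i, Φ i) * ∏ k, Ψ k, mul_ne_zero (mul_ne_zero hΦ1
    (Finset.prod_ne_zero_iff.2 fun i _ => hΦ i)) (Finset.prod_ne_zero_iff.2 fun i _ => hΨ i),
    fun t ht => ?_⟩
  rw [map_mul, map_mul, map_prod, map_prod] at ht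
  have ht1 := left_ne_zero_of_mul (left_ne_zero_of_mul ht)
  have hti : ∀ i, eval t (Φ i) ≠ 0 := fun i =>
    Finset.prod_ne_zero_iff.1 (right_ne_zero_of_mul (left_ne_zero_of_mul ht)) i (Finset.mem_univ i)
  have htk : ∀ i, eval t (Ψ i) ≠ 0 := fun i =>
    Finset.prod_ne_zero_iff.1 (right_ne_zero_of_mul ht) i (Finset.mem_univ i)
  set G := ∑ j, t j • (b j : MvPolynomial (Fin 3) K) with hG
  have hGV : G ∈ forms w P (e + 1) := by
    rw [hG]
    exact Submodule.sum_mem _ fun j _ => Submodule.smul_mem _ _ (b j).2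
  -- a functional which vanishes on the system and is compatible with the derivations
  have core1 : ∀ (E : MvPolynomial (Fin 3) K →ₗ[K] K) (T : Finset (Fin n)), T ⊆ S →
      (∀ F ∈ forms w P (e + 1), E F = 0) →
      (∀ k ∈ T, ∀ D : Fin 2 → Derivation ℚ K K,
        (∀ a i b, D a (P i b) = if i = k ∧ b = a then 1 else 0) →
          (∃ c : Fin 2 → K, ∀ F ∈ forms w P (e + 1), ∃ θ : K, ∀ a, E (dG (D a) F) = c a * θ) ∧
          ∀ a, E (dG (D a) G) = 0) →
      ∀ F ∈ forms (low w T) P (e + 1), E F = 0 := by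
    intro E T hT hE0 hEk
    refine step4E hsurj E hE0 fun k hk => ?_
    obtain ⟨hk0, -⟩ := hS k (hT hk)
    obtain ⟨m, hm⟩ : ∃ m, w k = m + 1 := ⟨w k - 1, by omega⟩
    have h6 : w k - 1 = m := by omega
    rw [h6]
    obtain ⟨D, hD⟩ := exists_move hP k
    obtain ⟨⟨c, hc⟩, hG0⟩ := hEk k hk D hD
    rcases hΨ' k t (htk k) (hT hk) with h | h
    · replace h := hA k h
      rw [hm] at h
      exact step3E hm (fun h' hh => lift hm h hh) D hD E hE0 c hc
    · refine step3B hm D hD E hE0 hGV hG0 fun h' hh => ?_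
      have h7 := h h' (by rw [h6]; exact hh)
      rwa [hm] at h7
  -- points in the plane
  have hnotP : ∀ Q : Fin 3 → K, Q ≠ 0 → eval Q G = 0 → (∀ a, eval Q (pderiv a G) = 0) →
      ∃ i, ∃ c : K, Q = c • (![P i 0, P i 1, 1] : Fin 3 → K) := by
    intro Q hQ hQ1 hQ2
    by_contra hcon
    push Not at hcon
    obtain ⟨g1, η, g2⟩ := h1 t ht1 Q hQ hQ1 hQ2
    choose θ hθ using g2
    have f0 : ∀ F ∈ forms w P (e + 1), eval Q F = 0 := by
      intro F hF
      obtain ⟨c, rfl⟩ := exists_comb b hF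
      rw [map_sum]
      refine Finset.sum_eq_zero fun j _ => ?_
      rw [smul_eval, g1, mul_zero]
    have f1 : ∀ F ∈ forms w P (e + 1), ∃ ϑ : K, ∀ a, eval Q (pderiv a F) = ϑ * η a := by
      intro F hF
      obtain ⟨c, rfl⟩ := exists_comb b hF
      refine ⟨∑ j, c j * θ j, fun a => ?_⟩
      rw [map_sum, map_sum, Finset.sum_mul]
      refine Finset.sum_congr rfl fun j _ => ?_
      rw [Derivation.map_smul, smul_eval, hθ]
      ring
    obtain ⟨E, hE⟩ := exists_ev Q
    have f3 := core1 E S (Finset.Subset.refl S) (fun F hF => by rw [hE]; exact f0 F hF)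
      (fun k _ D hD => ⟨⟨fun a => - ∑ b, η b * D a (Q b), fun F hF => by
        obtain ⟨ϑ, hϑ⟩ := f1 F hF
        refine ⟨ϑ, fun a => ?_⟩
        have h2 := der_eval (D a) Q F
        rw [f0 F hF, map_zero] at h2
        have h3 : ∑ b, eval Q (pderiv b F) * D a (Q b) = ϑ * ∑ b, η b * D a (Q b) := by
          rw [Finset.mul_sum]
          exact Finset.sum_congr rfl fun b _ => by rw [hϑ b]; ring
        rw [h3] at h2
        rw [hE]
        linear_combination -h2⟩, fun a => by
        have h2 := der_eval (D a) Q G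
        rw [hQ1, map_zero, Finset.sum_eq_zero (fun b _ => by rw [hQ2 b, zero_mul]), add_zero] at h2
        rw [hE]
        exact h2.symm⟩)
    exact hbp Q hQ (fun i ⟨c, hc⟩ => hcon i c hc) G hGV (fun k hk => hΨ' k t (htk k) hk) hQ1 hQ2
      f0 ⟨η, f1⟩ (fun F hF => by rw [← hE]; exact f3 F hF)
  -- leading forms
  have hlead : ∀ i, ∀ v : Fin 2 → K, v ≠ 0 →
      eval v (homogeneousComponent (w i) (tau (P i) G)) = 0 →
      ∃ a, eval v (pderiv a (homogeneousComponent (w i) (tau (P i) G))) ≠ 0 := by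
    intro i v hv hv1
    by_contra hcon
    push Not at hcon
    have hsum : homogeneousComponent (w i) (tau (P i) G) =
        ∑ j, t j • homogeneousComponent (w i) (tau (P i) (b j : MvPolynomial (Fin 3) K)) := by
      rw [hG, map_sum, map_sum]
      refine Finset.sum_congr rfl fun j _ => ?_
      rw [map_smul, map_smul]
    have hcon' := hcon
    have hv1' := hv1
    rw [hsum] at hv1' hcon'
    have h3 := hΦ' i t (hti i) v hv1' hcon'
    obtain ⟨a, ha⟩ : ∃ a, v a ≠ 0 := by
      by_contra hcon2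
      push Not at hcon2
      exact hv (funext hcon2)
    have h3F : ∀ F ∈ forms w P (e + 1),
        eval v (homogeneousComponent (w i) (tau (P i) F)) = 0 := by
      intro F hF
      obtain ⟨c, hc⟩ := exists_comb b hF
      rw [hc, map_sum, map_sum, map_sum]
      refine Finset.sum_eq_zero fun j _ => ?_
      rw [map_smul, map_smul, smul_eval, h3 j, mul_zero]
    by_cases hi : i ∈ S
    · rcases hΨ' i t (htk i) hi with h | h
      · replace h := hA i h
        obtain ⟨H, hH, hH'⟩ := lift (L := K) (w := w) (P := P) (d := e + 1) (k := i) rfl h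
          (h := X a ^ (w i)) (by
            have := (isHomogeneous_X K a).pow (w i)
            rwa [one_mul] at this)
        have h4 := h3F H hH
        rw [hH', map_pow, eval_X] at h4
        exact pow_ne_zero _ ha h4
      · obtain ⟨α, hα⟩ := h (X a ^ (w i - 1)) (by
            have := (isHomogeneous_X K a).pow (w i - 1)
            rwa [one_mul] at this)
        have h4 := congrArg (eval v) hα
        rw [map_pow, eval_X, map_sum, Finset.sum_eq_zero (fun b _ => by
          rw [smul_eval, hcon b, mul_zero])] at h4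
        exact pow_ne_zero _ ha h4
    · obtain ⟨E, hE⟩ := exists_lead (P i) (w i) v
      have f3 := core1 E S (Finset.Subset.refl S) (fun F hF => by rw [hE]; exact h3F F hF)
        (fun k hk D hD => ⟨⟨fun a => v 1 * D a (v 0) - v 0 * D a (v 1), fun F hF => by
          obtain ⟨θ, -, hθ⟩ := grad_two v v hv (homogeneousComponent_isHomogeneous (w i)
            (tau (P i) F)) (h3F F hF)
          refine ⟨θ, fun a => ?_⟩
          rw [hE, lead_der (i := i) (k := k) (fun h => hi (by rw [h]; exact hk)) (D a) (hD a) (w i) v F (h3F F hF),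
            hθ (fun b => D a (v b))]
          ring⟩, fun a => by
          rw [hE, lead_der (i := i) (k := k) (fun h => hi (by rw [h]; exact hk)) (D a) (hD a) (w i) v G hv1,
            Finset.sum_eq_zero (fun b _ => by rw [hcon b, zero_mul]), neg_zero]⟩)
      obtain ⟨F, hF, hF'⟩ := hfree i hi v hv
      rw [← hE] at hF'
      exact hF' (f3 F hF)
  refine ⟨fun Q hQ hQ1 hQ2 => ?_, fun i => ⟨?_, hlead i⟩⟩
  · obtain ⟨i, c, hc⟩ := hnotP Q hQ hQ1 hQ2
    refine ⟨i, Nat.pos_of_ne_zero fun hw0 => ?_, c, hc⟩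
    -- a point of multiplicity zero is not on the curve
    have h5 := hlead i (fun _ => 1) (fun h => one_ne_zero (congrFun h 0))
    rw [hw0] at h5
    have h6 : homogeneousComponent 0 (tau (P i) G) = C (eval ![P i 0, P i 1, 1] G) := by
      rw [homogeneousComponent_zero]
      congr 1
      exact constCoeff_tau (P i) G
    rw [h6] at h5
    have hc0 : c ≠ 0 := by
      rintro rfl
      rw [zero_smul] at hc
      exact hQ hc
    have h7 : eval (![P i 0, P i 1, 1] : Fin 3 → K) G = 0 := by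
      have h9 : eval Q G = c ^ (e + 1) * eval (![P i 0, P i 1, 1] : Fin 3 → K) G := by
        rw [hc]
        have h10 := (mem_forms.1 hGV).1
        rw [eval_eq, eval_eq, Finset.mul_sum]
        refine Finset.sum_congr rfl fun s hs => ?_
        have h11 : s 0 + s 1 + s 2 = e + 1 :=
          H932R2.sum_eq_of_homog h10 (mem_support_iff.1 hs)
        simp only [Pi.smul_apply, smul_eq_mul, mul_pow, Finset.prod_mul_distrib]
        have h12 : ∑ i ∈ s.support, s i = e + 1 := by
          rw [Finset.sum_subset (Finset.subset_univ s.support)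
            (fun i _ hi => Finsupp.notMem_support_iff.1 hi), Fin.sum_univ_three, h11]
        rw [Finset.prod_pow_eq_pow_sum, h12]
        ring
      rw [hQ1] at h9
      exact (mul_eq_zero.1 h9.symm).resolve_left (pow_ne_zero _ hc0)
    rw [h7, C_0, map_zero] at h5
    obtain ⟨a, ha⟩ := h5 rfl
    exact ha (by simp)
  · exact (mem_pow_idealOfVars_iff' _ _).1 ((mem_forms.1 hGV).2 i)

/-- **Smoothness of the general member**, if the lowered system has no base points. -/
theorem general_main {K : Type} [Field K] [CharZero K] {n e : ℕ} {w : Fin n → ℕ}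
    {P : Fin n → Fin 2 → K}
    (hP : AlgebraicIndependent ℚ (fun ij : Fin n × Fin 2 => P ij.1 ij.2)) (S : Finset (Fin n))
    (hsurj : Function.Surjective (ev w P (e + 1)))
    (hS : ∀ k ∈ S, 0 < w k ∧
      (Function.Surjective (ev (Function.update w k (w k + 1)) P (e + 1)) ∨
        GeneralMember (forms w P (e + 1)) (Spread w P k)))
    (hbp : ∀ q : Fin 3 → K, q ≠ 0 → (∀ i, ¬ ∃ c : K, q = c • (![P i 0, P i 1, 1] : Fin 3 → K)) →
      ∃ G ∈ forms (low w S) P (e + 1), eval q G ≠ 0)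
    (hfree : ∀ i, i ∉ S → ∀ v : Fin 2 → K, v ≠ 0 → ∃ G ∈ forms (low w S) P (e + 1),
      eval v (homogeneousComponent (w i) (tau (P i) G)) ≠ 0) :
    GeneralMember (forms w P (e + 1)) (SmoothMember w P) :=
  general_main' hP S hsurj _ (fun _ h => h) hS (fun q hq hqP _ _ _ _ _ _ _ h => by
    obtain ⟨F, hF, hF'⟩ := hbp q hq hqP
    exact hF' (h F hF)) hfree

/-- Derivations which fix the points of positive multiplicity preserve the system. -/
theorem dG_forms {K : Type*} [Field K] [CharZero K] {n d : ℕ} {u : Fin n → ℕ}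
    {P : Fin n → Fin 2 → K} (D : Derivation ℚ K K) (hD : ∀ i b, 0 < u i → D (P i b) = 0)
    {G : MvPolynomial (Fin 3) K} (hG : G ∈ forms u P d) : dG D G ∈ forms u P d := by
  obtain ⟨h1, h2⟩ := mem_forms.1 hG
  refine mem_forms.2 ⟨dG_homog D h1, fun i => ?_⟩
  rw [mem_pow_idealOfVars_iff']
  intro s hs
  have ht2 : tau (P i) (dG D G) = dG D (tau (P i) G) := by
    rw [tau_dG, Finset.sum_eq_zero, sub_zero]
    intro b _
    rw [hD i b (by omega), C_0, zero_mul]
  rw [ht2, coeff_dG, (mem_pow_idealOfVars_iff' _ _).1 (h2 i) s hs, map_zero]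

/-- Two equations. -/
theorem par_of_perp {L : Type*} [Field L] (q ξ y : Fin 3 → L)
    (hN : ¬ (q 1 * ξ 2 - q 2 * ξ 1 = 0 ∧ q 2 * ξ 0 - q 0 * ξ 2 = 0 ∧ q 0 * ξ 1 - q 1 * ξ 0 = 0))
    (h1 : ∑ b, q b * y b = 0) (h2 : ∑ b, y b * ξ b = 0) :
    ∃ θ : L, ∀ a, y a = θ * ![q 1 * ξ 2 - q 2 * ξ 1, q 2 * ξ 0 - q 0 * ξ 2,
      q 0 * ξ 1 - q 1 * ξ 0] a := by
  rw [Fin.sum_univ_three] at h1 h2
  obtain ⟨N0, hN0⟩ : ∃ x, x = q 1 * ξ 2 - q 2 * ξ 1 := ⟨_, rfl⟩
  obtain ⟨N1, hN1⟩ : ∃ x, x = q 2 * ξ 0 - q 0 * ξ 2 := ⟨_, rfl⟩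
  obtain ⟨N2, hN2⟩ : ∃ x, x = q 0 * ξ 1 - q 1 * ξ 0 := ⟨_, rfl⟩
  have h01 : N0 * y 1 = N1 * y 0 := by
    rw [hN0, hN1]
    linear_combination ξ 2 * h1 - q 2 * h2
  have h02 : N0 * y 2 = N2 * y 0 := by
    rw [hN0, hN2]
    linear_combination q 1 * h2 - ξ 1 * h1
  have h12 : N1 * y 2 = N2 * y 1 := by
    rw [hN1, hN2]
    linear_combination ξ 0 * h1 - q 0 * h2
  rw [← hN0, ← hN1, ← hN2] at hN ⊢
  have key : ∀ θ : L, y 0 = θ * N0 → y 1 = θ * N1 → y 2 = θ * N2 →
      ∃ θ : L, ∀ a, y a = θ * ![N0, N1, N2] a := by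
    intro θ a0 a1 a2
    refine ⟨θ, fun a => ?_⟩
    fin_cases a
    · exact a0
    · exact a1
    · exact a2
  by_cases e0 : N0 = 0
  · by_cases e1 : N1 = 0
    · have e2 : N2 ≠ 0 := fun e2 => hN ⟨e0, e1, e2⟩
      refine key (y 2 / N2) ?_ ?_ ?_
      · rw [div_mul_eq_mul_div, eq_div_iff e2]
        linear_combination -h02
      · rw [div_mul_eq_mul_div, eq_div_iff e2]
        linear_combination -h12
      · rw [div_mul_cancel₀ _ e2]
    · refine key (y 1 / N1) ?_ ?_ ?_
      · rw [div_mul_eq_mul_div, eq_div_iff e1]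
        linear_combination -h01
      · rw [div_mul_cancel₀ _ e1]
      · rw [div_mul_eq_mul_div, eq_div_iff e1]
        linear_combination h12
  · refine key (y 0 / N0) ?_ ?_ ?_
    · rw [div_mul_cancel₀ _ e0]
    · rw [div_mul_eq_mul_div, eq_div_iff e0]
      linear_combination h01
    · rw [div_mul_eq_mul_div, eq_div_iff e0]
      linear_combination h02

theorem exists_grad {K : Type*} [Field K] (q ψ : Fin 3 → K) :
    ∃ E : MvPolynomial (Fin 3) K →ₗ[K] K, ∀ G, E G = ∑ b, ψ b * eval q (pderiv b G) := by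
  refine ⟨∑ b, ψ b • ((aeval q : MvPolynomial (Fin 3) K →ₐ[K] K).toLinearMap ∘ₗ
    (pderiv b : Derivation K (MvPolynomial (Fin 3) K) (MvPolynomial (Fin 3) K)).toLinearMap),
    fun G => ?_⟩
  rw [LinearMap.sum_apply]
  refine Finset.sum_congr rfl fun b _ => ?_
  rw [LinearMap.smul_apply, smul_eq_mul]
  rfl

end Pool.Agent.K3h98.RL
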