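import Mathlib
import Pool.Agent.K3h98.RL.Gen

set_option autoImplicit false

/-!
# Binary forms of degree at most two
-/

namespace Pool.Agent.K3h98.RL

open MvPolynomial Pool.Agent.H248R5 Pool.Agent.H248R6

variable {K : Type*} [Field K]

theorem lin_eq {g : MvPolynomial (Fin 2) K} (hg : g.IsHomogeneous 1) :
    g = C (coeff (Finsupp.single 0 1) g) * X 0 + C (coeff (Finsupp.single 1 1) g) * X 1 := by
  classical
  have hX : ∀ a : Fin 2, (X a : MvPolynomial (Fin 2) K) = monomial (Finsupp.single a 1) 1 :=
    fun a => rfl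
  rw [hX, hX, C_mul_monomial, C_mul_monomial, mul_one, mul_one]
  ext s
  rw [coeff_add, coeff_monomial, coeff_monomial]
  by_cases hs : s 0 + s 1 = 1
  · rcases Nat.eq_zero_or_pos (s 0) with h0 | h0
    · have e : s = Finsupp.single 1 1 := by
        ext i
        fin_cases i
        · simpa using h0
        · simp
          omega
      subst e
      rw [if_neg, if_pos rfl, zero_add]
      intro h
      have := DFunLike.congr_fun h 0
      simp at this
    · have e : s = Finsupp.single 0 1 := by
        ext i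
        fin_cases i
        · simp
          omega
        · simp
          omega
      subst e
      rw [if_pos rfl, if_neg, add_zero]
      intro h
      have := DFunLike.congr_fun h 0
      simp at this
  · have h0 : coeff s g = 0 := by
      by_contra hne
      have := hg hne
      rw [Finsupp.weight_apply, Finsupp.sum_fintype _ _ (fun i => by simp),
        Fin.sum_univ_two] at this
      simp at this
      exact hs this
    rw [h0, if_neg, if_neg, add_zero]
    · intro h
      rw [← h] at hs
      simp at hs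
    · intro h
      rw [← h] at hs
      simp at hs

theorem quad_eq {g : MvPolynomial (Fin 2) K} (hg : g.IsHomogeneous 2) :
    g = C (coeff (Finsupp.single 0 2) g) * X 0 ^ 2 +
      C (coeff (Finsupp.single 0 1 + Finsupp.single 1 1) g) * (X 0 * X 1) +
      C (coeff (Finsupp.single 1 2) g) * X 1 ^ 2 := by
  classical
  have hX : ∀ a : Fin 2, (X a ^ 2 : MvPolynomial (Fin 2) K) = monomial (Finsupp.single a 2) 1 :=
    fun a => X_pow_eq_monomial
  have hXY : (X 0 * X 1 : MvPolynomial (Fin 2) K) =
      monomial (Finsupp.single 0 1 + Finsupp.single 1 1) 1 := by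
    rw [X, X, monomial_mul, mul_one]
  rw [hX, hX, hXY, C_mul_monomial, C_mul_monomial, C_mul_monomial, mul_one, mul_one, mul_one]
  ext s
  rw [coeff_add, coeff_add, coeff_monomial, coeff_monomial, coeff_monomial]
  by_cases hs : s 0 + s 1 = 2
  · obtain h0 | h0 | h0 : s 0 = 0 ∨ s 0 = 1 ∨ s 0 = 2 := by omega
    · have e : s = Finsupp.single 1 2 := by
        ext i
        fin_cases i
        · simpa using h0
        · simp
          omega
      subst e
      rw [if_neg, if_neg, if_pos rfl, zero_add, zero_add]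
      · intro h
        have := DFunLike.congr_fun h 0
        simp at this
      · intro h
        have := DFunLike.congr_fun h 0
        simp at this
    · have e : s = Finsupp.single 0 1 + Finsupp.single 1 1 := by
        ext i
        fin_cases i
        · simpa using h0
        · simp
          omega
      subst e
      rw [if_neg, if_pos rfl, if_neg, zero_add, add_zero]
      · intro h
        have := DFunLike.congr_fun h 0
        simp at this
      · intro h
        have := DFunLike.congr_fun h 0
        simp at this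
    · have e : s = Finsupp.single 0 2 := by
        ext i
        fin_cases i
        · simpa using h0
        · simp
          omega
      subst e
      rw [if_pos rfl, if_neg, if_neg, add_zero, add_zero]
      · intro h
        have := DFunLike.congr_fun h 0
        simp at this
      · intro h
        have := DFunLike.congr_fun h 0
        simp at this
  · have h0 : coeff s g = 0 := by
      by_contra hne
      have := hg hne
      rw [Finsupp.weight_apply, Finsupp.sum_fintype _ _ (fun i => by simp),
        Fin.sum_univ_two] at this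
      simp at this
      exact hs this
    rw [h0, if_neg, if_neg, if_neg, add_zero, add_zero]
    · intro h
      rw [← h] at hs
      simp at hs
    · intro h
      rw [← h] at hs
      simp at hs
    · intro h
      rw [← h] at hs
      simp at hs

theorem const_eq {g : MvPolynomial (Fin 2) K} (hg : g.IsHomogeneous 0) :
    g = C (coeff 0 g) := by
  have := (totalDegree_zero_iff_isHomogeneous (σ := Fin 2) (R := K)).2 hg
  exact (totalDegree_eq_zero_iff_eq_C).1 this

theorem pd_lin (a b : K) (i : Fin 2) :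
    pderiv i (C a * X 0 + C b * X 1 : MvPolynomial (Fin 2) K) = C (![a, b] i) := by
  fin_cases i
  · simp [pderiv_X]
  · simp [pderiv_X]

theorem pd_quad0 (a m b : K) :
    pderiv 0 (C a * X 0 ^ 2 + C m * (X 0 * X 1) + C b * X 1 ^ 2 : MvPolynomial (Fin 2) K) =
      C (2 * a) * X 0 + C m * X 1 := by
  have h2 : (C 2 : MvPolynomial (Fin 2) K) = 2 := map_ofNat C 2
  simp [pderiv_X, Derivation.leibniz, h2]
  ring

theorem pd_quad1 (a m b : K) :
    pderiv 1 (C a * X 0 ^ 2 + C m * (X 0 * X 1) + C b * X 1 ^ 2 : MvPolynomial (Fin 2) K) =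
      C m * X 0 + C (2 * b) * X 1 := by
  have h2 : (C 2 : MvPolynomial (Fin 2) K) = 2 := map_ofNat C 2
  simp [pderiv_X, Derivation.leibniz, h2]
  ring

/-- a nonzero linear form -/
theorem span_one {g : MvPolynomial (Fin 2) K} (hg : g.IsHomogeneous 1) {i : Fin 2}
    (hi : coeff (Finsupp.single i 1) g ≠ 0) (h : MvPolynomial (Fin 2) K)
    (hh : h.IsHomogeneous 0) : ∃ α : Fin 2 → K, h = ∑ a, α a • pderiv a g := by
  classical
  refine ⟨Pi.single i (coeff 0 h / coeff (Finsupp.single i 1) g), ?_⟩
  rw [Finset.sum_eq_single i]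
  · have e := lin_eq hg
    have e2 : pderiv i g = C (coeff (Finsupp.single i 1) g) := by
      conv_lhs => rw [e]
      rw [pd_lin]
      fin_cases i <;> rfl
    rw [e2, Pi.single_eq_same, smul_eq_C_mul, ← C_mul, div_mul_cancel₀ _ hi]
    exact const_eq hh
  · intro b _ hb
    rw [Pi.single_eq_of_ne hb, zero_smul]
  · intro h
    exact absurd (Finset.mem_univ i) h

/-- a nondegenerate quadratic form -/
theorem span_two {g : MvPolynomial (Fin 2) K} (hg : g.IsHomogeneous 2)
    (hi : 4 * coeff (Finsupp.single 0 2) g * coeff (Finsupp.single 1 2) g -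
      coeff (Finsupp.single 0 1 + Finsupp.single 1 1) g ^ 2 ≠ 0) (h : MvPolynomial (Fin 2) K)
    (hh : h.IsHomogeneous 1) : ∃ α : Fin 2 → K, h = ∑ a, α a • pderiv a g := by
  obtain ⟨a, ha⟩ : ∃ a, a = coeff (Finsupp.single 0 2) g := ⟨_, rfl⟩
  obtain ⟨m, hm⟩ : ∃ m, m = coeff (Finsupp.single 0 1 + Finsupp.single 1 1) g := ⟨_, rfl⟩
  obtain ⟨b, hb⟩ : ∃ b, b = coeff (Finsupp.single 1 2) g := ⟨_, rfl⟩
  have e := quad_eq hg
  rw [← ha, ← hm, ← hb] at e hi
  have e1 := lin_eq hh
  obtain ⟨x, hx⟩ : ∃ x, x = coeff (Finsupp.single 0 1) h := ⟨_, rfl⟩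
  obtain ⟨y, hy⟩ : ∃ y, y = coeff (Finsupp.single 1 1) h := ⟨_, rfl⟩
  rw [← hx, ← hy] at e1
  obtain ⟨p, hp⟩ : ∃ p, p = (2 * b * x - m * y) / (4 * a * b - m ^ 2) := ⟨_, rfl⟩
  obtain ⟨q, hq⟩ : ∃ q, q = (2 * a * y - m * x) / (4 * a * b - m ^ 2) := ⟨_, rfl⟩
  have e3 : x = p * (2 * a) + q * m := by
    rw [hp, hq, div_mul_eq_mul_div, div_mul_eq_mul_div, ← add_div, eq_div_iff hi]
    ring
  have e4 : y = p * m + q * (2 * b) := by
    rw [hp, hq, div_mul_eq_mul_div, div_mul_eq_mul_div, ← add_div, eq_div_iff hi]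
    ring
  refine ⟨![p, q], ?_⟩
  rw [Fin.sum_univ_two, e, pd_quad0, pd_quad1, e1, e3, e4]
  simp only [Matrix.cons_val_zero, Matrix.cons_val_one, smul_eq_C_mul]
  simp only [C_add, C_mul]
  ring

/-- a degenerate quadratic form -/
theorem ker_two {g : MvPolynomial (Fin 2) K} (hg : g.IsHomogeneous 2)
    (hi : 4 * coeff (Finsupp.single 0 2) g * coeff (Finsupp.single 1 2) g -
      coeff (Finsupp.single 0 1 + Finsupp.single 1 1) g ^ 2 = 0) :
    ∃ v : Fin 2 → K, v ≠ 0 ∧ ∑ a, v a • pderiv a g = 0 := by
  obtain ⟨a, ha⟩ : ∃ a, a = coeff (Finsupp.single 0 2) g := ⟨_, rfl⟩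
  obtain ⟨m, hm⟩ : ∃ m, m = coeff (Finsupp.single 0 1 + Finsupp.single 1 1) g := ⟨_, rfl⟩
  obtain ⟨b, hb⟩ : ∃ b, b = coeff (Finsupp.single 1 2) g := ⟨_, rfl⟩
  have e := quad_eq hg
  rw [← ha, ← hm, ← hb] at e hi
  have key : ∀ x y : K, 2 * a * x + m * y = 0 → m * x + 2 * b * y = 0 →
      ∑ c, (![x, y] : Fin 2 → K) c • pderiv c g = 0 := by
    intro x y h1 h2
    rw [Fin.sum_univ_two, e, pd_quad0, pd_quad1]
    simp only [Matrix.cons_val_zero, Matrix.cons_val_one, smul_eq_C_mul]
    have e3 : C x * (C (2 * a) * X 0 + C m * X 1) + C y * (C m * X 0 + C (2 * b) * X 1) =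
        C (2 * a * x + m * y) * X 0 + C (m * x + 2 * b * y) * (X 1 : MvPolynomial (Fin 2) K) := by
      simp only [C_add, C_mul]
      ring
    rw [e3, h1, h2, C_0, zero_mul, zero_mul, add_zero]
  by_cases h : m = 0 ∧ 2 * a = 0
  · refine ⟨![1, 0], fun h0 => ?_, key 1 0 (by rw [h.1, h.2]; ring) (by rw [h.1]; ring)⟩
    have := congrFun h0 0
    simp at this
  · refine ⟨![m, -(2 * a)], fun h0 => h ⟨?_, ?_⟩, key _ _ (by ring) (by linear_combination -hi)⟩
    · simpa using congrFun h0 0
    · simpa using congrFun h0 1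

end Pool.Agent.K3h98.RL
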