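import Pool.Agent.K3h98.RL.Node
import Pool.Agent.K3h62.SI.Core

set_option autoImplicit false

/-!
# Vectors with enough small multiplicities: the general member in every degree
-/

namespace Pool.Agent.K3h98.RL

open MvPolynomial Pool.Agent.H248R5 Pool.Agent.H248R6 Pool.Agent.R873.SB Pool.Agent.K3h62.SI

section num

variable {n : ℕ}

theorem chi_low (d : ℕ) (w : Fin n → ℕ) (S : Finset (Fin n)) (hS : ∀ k ∈ S, 0 < w k) :
    chi d (low w S) = chi d w + ∑ k ∈ S, (w k : ℤ) := by
  classical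
  have h1 := two_chi d (low w S)
  have h2 := two_chi d w
  have h3 : ∑ i, ((low w S i : ℕ) : ℤ) * ((low w S i : ℕ) + 1) =
      ∑ i, ((w i : ℤ) * (w i + 1) - if i ∈ S then 2 * (w i : ℤ) else 0) := by
    refine Finset.sum_congr rfl fun i _ => ?_
    unfold low
    by_cases hi : i ∈ S
    · rw [if_pos hi, if_pos hi]
      obtain ⟨m, hm⟩ : ∃ m, w i = m + 1 := ⟨w i - 1, by have := hS i hi; omega⟩
      rw [hm, Nat.add_sub_cancel]
      push_cast
      ring
    · rw [if_neg hi, if_neg hi, sub_zero]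
  rw [h3, Finset.sum_sub_distrib, Finset.sum_ite_mem, Finset.univ_inter, ← Finset.mul_sum] at h1
  linarith

theorem sum_low (w : Fin n → ℕ) (S : Finset (Fin n)) (hS : ∀ k ∈ S, 0 < w k) :
    ∑ i, ((low w S i : ℕ) : ℤ) = ∑ i, (w i : ℤ) - S.card := by
  classical
  have h3 : ∑ i, ((low w S i : ℕ) : ℤ) = ∑ i, ((w i : ℤ) - if i ∈ S then 1 else 0) := by
    refine Finset.sum_congr rfl fun i _ => ?_
    unfold low
    by_cases hi : i ∈ S
    · rw [if_pos hi, if_pos hi]
      have := hS i hi
      push_cast [this]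
      rfl
    · rw [if_neg hi, if_neg hi, sub_zero]
  rw [h3, Finset.sum_sub_distrib, Finset.sum_ite_mem, Finset.univ_inter, Finset.sum_const]
  simp

theorem low_le (w : Fin n → ℕ) (S : Finset (Fin n)) (i : Fin n) : low w S i ≤ w i := by
  unfold low
  split_ifs <;> omega

/-- The numerical bounds for the lowered vector. -/
theorem bounds {μ d : ℕ} {w : Fin n → ℕ} (hw : ∀ i, w i ≤ μ)
    (hsum : 26000 * ((μ : ℤ) + 3) ^ 2 ≤ ∑ i, (w i : ℤ)) {S : Finset (Fin n)}
    (hS : ∀ k ∈ S, 0 < w k) (h1 : 1 ≤ chi d w)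
    (h2 : 2 * (μ : ℤ) + 3 ≤ chi d w + ∑ k ∈ S, (w k : ℤ)) :
    2 * (μ : ℤ) + 3 ≤ chi d (low w S) ∧
      26000 * ((μ : ℤ) + 3) ^ 2 + 4 * μ + 3 ≤ ∑ i, ((low w S i : ℕ) : ℤ) + 4 * chi d (low w S) := by
  have h3 := chi_low d w S hS
  have h4 := sum_low w S hS
  have h5 : (S.card : ℤ) ≤ ∑ k ∈ S, (w k : ℤ) := by
    have h6 : ∑ k ∈ S, (1 : ℤ) ≤ ∑ k ∈ S, (w k : ℤ) :=
      Finset.sum_le_sum fun k hk => by exact_mod_cast hS k hk
    simpa using h6
  constructor
  · linarith
  · rw [h3, h4]
    linarith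

end num

section smooth

variable {K : Type} [Field K] {n : ℕ}

/-- A smooth member at a given point. -/
theorem exists_of_general {K : Type} [Field K] [CharZero K] {n : ℕ} {w : Fin n → ℕ}
    {P : Fin n → Fin 2 → K} {d : ℕ} {p : MvPolynomial (Fin 3) K → Prop}
    (h : GeneralMember (forms w P d) p) : ∃ G ∈ forms w P d, p G := by
  have hfin := forms_finite w P d
  obtain ⟨Φ, hΦ, h1⟩ := h _ (Module.finBasis K ↥(forms w P d))
  obtain ⟨t, ht⟩ : ∃ t, eval t Φ ≠ 0 := by
    by_contra hcon
    push Not at hcon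
    exact hΦ (MvPolynomial.funext fun t => by rw [hcon t, map_zero])
  exact ⟨_, Submodule.sum_mem _ fun j _ => Submodule.smul_mem _ _
    (Module.finBasis K ↥(forms w P d) j).2, h1 t ht⟩

/-- **The general member for vectors with enough multiplicities which may be lowered.** -/
theorem smooth_of_lower [CharZero K] {μ e : ℕ} {w : Fin n → ℕ} (hw : ∀ i, w i ≤ μ)
    (hsum : 26000 * ((μ : ℤ) + 3) ^ 2 ≤ ∑ i, (w i : ℤ)) {P : Fin n → Fin 2 → K}
    (hP : AlgebraicIndependent ℚ (fun ij : Fin n × Fin 2 => P ij.1 ij.2)) (S : Finset (Fin n))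
    (hS : ∀ k ∈ S, 0 < w k ∧ ((w k : ℤ) < chi (e + 1) w ∨
      GeneralMember (forms w P (e + 1)) (Spread w P k)))
    (h1 : 1 ≤ chi (e + 1) w) (h2 : 2 * (μ : ℤ) + 3 ≤ chi (e + 1) w + ∑ k ∈ S, (w k : ℤ)) :
    GeneralMember (forms w P (e + 1)) (SmoothMember w P) := by
  classical
  have hμ : (0 : ℤ) ≤ μ := Int.natCast_nonneg _
  have hn : 0 < n := by
    rcases Nat.eq_zero_or_pos n with h0 | h0
    · exfalso
      subst h0
      simp at hsum
      nlinarith
    · exact h0
  have hbig : 25000 * ((μ : ℤ) + 1 + 1) ^ 2 ≤ 26000 * ((μ : ℤ) + 3) ^ 2 := by nlinarith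
  have hbig2 : 26000 * ((μ : ℤ) + 2) ^ 2 ≤ 26000 * ((μ : ℤ) + 3) ^ 2 := by nlinarith
  have hbig0 : 25000 * ((μ : ℤ) + 1) ^ 2 ≤ 26000 * ((μ : ℤ) + 3) ^ 2 := by nlinarith
  have hSpos : ∀ k ∈ S, 0 < w k := fun k hk => (hS k hk).1
  obtain ⟨b1, b2⟩ := bounds (d := e + 1) hw hsum hSpos h1 h2
  obtain ⟨u, hu⟩ : ∃ u, u = low w S := ⟨_, rfl⟩
  rw [← hu] at b1 b2
  have huμ : ∀ i, u i ≤ μ := fun i => by
    rw [hu]
    exact (low_le w S i).trans (hw i)
  have huμ' : ∀ i, (u i : ℤ) ≤ μ := fun i => by exact_mod_cast huμ i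
  have hwμ' : ∀ i, (w i : ℤ) ≤ μ := fun i => by exact_mod_cast hw i
  -- surjectivity
  have hsurj : Function.Surjective (ev w P (e + 1)) := by
    refine surj_of_ok (ok_of_generic hP _) hw (by linarith) ?_
    rw [abs_of_nonneg (by linarith)]
    linarith
  have hsurju : Function.Surjective (ev u P (e + 1)) :=
    surj_mono (fun i => by rw [hu]; exact low_le w S i) hsurj
  have hup : ∀ k, Function.Surjective (ev (Function.update u k (u k + 1)) P (e + 1)) := by
    intro k
    have hk := huμ' k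
    refine surj_of_ok (ok_of_generic hP _) (upd_le huμ k) (by rw [chi_upd]; linarith) ?_
    rw [chi_upd, K3h62.SI.sum_upd, abs_of_nonneg (by linarith)]
    push_cast
    linarith
  have hlow : Function.Surjective (ev (fun i => u i - 1) P e) := by
    refine surj_pred hn huμ ⟨?_, fun k => ?_⟩ (ok_of_generic hP _)
    · rw [abs_of_nonneg (by linarith)]
      linarith
    · have := huμ' k
      linarith
  refine general_main hP S hsurj (fun k hk => ⟨(hS k hk).1, ?_⟩) ?_ ?_
  · rcases (hS k hk).2 with h | h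
    · left
      refine surj_of_ok (ok_of_generic hP _) (upd_le hw k) (by rw [chi_upd]; linarith) ?_
      rw [chi_upd, K3h62.SI.sum_upd, abs_of_nonneg (by linarith)]
      push_cast
      linarith
    · exact Or.inr h
  · intro q hq hqP
    rw [← hu]
    refine bpf_point hP hsurju (fun k _ => hup k) hlow q hq hqP fun k hk => ?_
    obtain ⟨F, hF, hF'⟩ := K3h62.SI.main (K := K) hn (Function.update u k (u k + 1)) (upd_le huμ k)
    have hgood : Good (μ + 1) (Function.update u k (u k + 1)) (e + 1) := by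
      have hk := huμ' k
      constructor
      · rw [chi_upd, K3h62.SI.sum_upd, abs_of_nonneg (by linarith)]
        push_cast
        have e1 : ((μ : ℤ) + 1 + 2) = μ + 3 := by ring
        rw [e1]
        linarith
      · intro j
        rw [chi_upd]
        have hj : ((Function.update u k (u k + 1) j : ℕ) : ℤ) ≤ μ + 1 := by
          exact_mod_cast upd_le huμ k j
        have hj2 : ((Function.update u k (u k + 1) j : ℕ) : ℤ) ≤ max (u j : ℤ) (u k + 1) := by
          by_cases h : j = k
          · subst h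
            rw [Function.update_self]
            push_cast
            exact le_max_right _ _
          · rw [Function.update_of_ne h]
            exact le_max_left _ _
        have hjj := huμ' j
        linarith
    obtain ⟨G, hG, hG'⟩ := exists_of_general
      (((hF' P (aeval_ne hP hF)).2 _ (fun i => le_rfl) (e + 1) hgood).2)
    refine ⟨G, hG, ?_⟩
    by_contra hcon
    push Not at hcon
    obtain ⟨i, -, hi⟩ := hG'.1 q hq hcon.1 hcon.2
    exact hqP i hi
  · intro i hi v hv
    obtain ⟨a, ha⟩ : ∃ a, v a ≠ 0 := by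
      by_contra hcon2
      push Not at hcon2
      exact hv (funext hcon2)
    have hui : u i = w i := by
      rw [hu]
      unfold low
      rw [if_neg hi]
    rw [← hu]
    have h := hup i
    rw [hui] at h
    obtain ⟨H, hH, hH'⟩ := lift (L := K) (w := u) (P := P) (d := e + 1) (k := i) hui h
      (h := X a ^ (w i)) (by
        have := (isHomogeneous_X K a).pow (w i)
        rwa [one_mul] at this)
    refine ⟨H, hH, ?_⟩
    rw [hH', map_pow, eval_X]
    exact pow_ne_zero _ ha

end smooth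

end Pool.Agent.K3h98.RL
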