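import Pool.Agent.H248R6.Dim
import Pool.Agent.K3h98.RL.Gen

set_option autoImplicit false

/-!
# Additional simple points
-/

namespace Pool.Agent.K3h98.RL

open MvPolynomial Pool.Agent.H248R5 Pool.Agent.H248R6

/-- **Simple points.** The general member of a system with additional general simple points is smooth, if the
conditions without the simple points are independent with one raised multiplicity. -/
theorem simple_main {K : Type} [Field K] [CharZero K] {n e : ℕ} {w : Fin n → ℕ}
    {P : Fin n → Fin 2 → K}
    (hP : AlgebraicIndependent ℚ (fun ij : Fin n × Fin 2 => P ij.1 ij.2)) (S : Finset (Fin n))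
    (hS1 : ∀ k ∈ S, w k = 1) (hsurj : Function.Surjective (ev w P (e + 1)))
    (hup : ∀ k, k ∉ S → Function.Surjective (ev (Function.update (low w S) k (w k + 1)) P (e + 1)))
    (hlow : Function.Surjective (ev (fun i => low w S i - 1) P e))
    (hsp : ∀ k ∈ S, GeneralMember (forms w P (e + 1)) (Spread w P k)) :
    GeneralMember (forms w P (e + 1)) (SmoothMember w P) := by
  classical
  have hlw0 : ∀ k ∈ S, low w S k = 0 := by
    intro k hk
    unfold low
    rw [if_pos hk, hS1 k hk]
  have hlw1 : ∀ k, k ∉ S → low w S k = w k := by
    intro k hk
    unfold low
    rw [if_neg hk]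
  have hsurju : Function.Surjective (ev (low w S) P (e + 1)) :=
    surj_mono (fun i => by unfold low; split_ifs <;> omega) hsurj
  refine general_main' hP S hsurj (fun _ => False) (fun _ h => h.elim) (fun k hk => ⟨by rw [hS1 k hk]; exact one_pos,
    Or.inr (hsp k hk)⟩) ?_ ?_
  · intro q hq hqP G hG hGS hq1 hq2 f0 ⟨η, f1⟩ f3
    -- rank at most one on the larger system
    have f4 : ∃ η' : Fin 3 → K, ∀ F ∈ forms (low w S) P (e + 1), ∃ θ : K, ∀ a,
        eval q (pderiv a F) = θ * η' a := by
      by_cases hmv : ∃ k ∈ S, ∃ (a : Fin 2) (D : Derivation ℚ K K),
          (∀ i b, D (P i b) = if i = k ∧ b = a then 1 else 0) ∧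
          ¬ (q 1 * D (q 2) - q 2 * D (q 1) = 0 ∧ q 2 * D (q 0) - q 0 * D (q 2) = 0 ∧
            q 0 * D (q 1) - q 1 * D (q 0) = 0)
      · obtain ⟨k, hk, a, D, hD, hN⟩ := hmv
        refine ⟨_, fun F hF => par_of_perp q (fun b => D (q b)) (fun b => eval q (pderiv b F)) hN
          (euler (mem_forms.1 hF).1 (f3 F hF)) ?_⟩
        have h1 := der_eval D q F
        have h2 : dG D F ∈ forms (low w S) P (e + 1) := by
          refine dG_forms D (fun i b hi => ?_) hF
          rw [hD, if_neg]
          rintro ⟨rfl, -⟩
          rw [hlw0 i hk] at hi
          omega
        rw [f3 F hF, map_zero, f3 _ h2, zero_add] at h1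
        exact h1.symm
      · push Not at hmv
        -- the singular point does not move
        have hfix : ∀ k ∈ S, ∀ (a : Fin 2) (D : Derivation ℚ K K),
            (∀ i b, D (P i b) = if i = k ∧ b = a then 1 else 0) →
            ∃ r : K, ∀ c, D (q c) = r * q c := by
          intro k hk a D hD
          obtain ⟨c0, hc0⟩ : ∃ c, q c ≠ 0 := by
            by_contra hcon2
            push Not at hcon2
            exact hq (funext hcon2)
          obtain ⟨n0, n1, n2⟩ := hmv k hk a D hD
          have hall : ∀ c0 c : Fin 3, D (q c) * q c0 = D (q c0) * q c := by
            intro c0 c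
            fin_cases c0 <;> fin_cases c <;> simp only [Fin.zero_eta, Fin.mk_one,
              Fin.reduceFinMk, Fin.isValue]
            · linear_combination n2
            · linear_combination -n1
            · linear_combination -n2
            · linear_combination n0
            · linear_combination n1
            · linear_combination -n0
          refine ⟨D (q c0) / q c0, fun c => ?_⟩
          rw [div_mul_eq_mul_div, eq_div_iff hc0]
          exact hall c0 c
        -- the derivatives of `G` are singular at `q`
        have hDG : ∀ k ∈ S, ∀ (a : Fin 2) (D : Derivation ℚ K K),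
            (∀ i b, D (P i b) = if i = k ∧ b = a then 1 else 0) →
            ∀ l, eval q (pderiv l (dG D G)) = 0 := by
          intro k hk a D hD l
          obtain ⟨r, hr⟩ := hfix k hk a D hD
          have h1 := der_eval D q (pderiv l G)
          have h2 : dG D (pderiv l G) = pderiv l (dG D G) := by
            ext s
            rw [coeff_dG, coeff_pderiv, coeff_pderiv, coeff_dG, Derivation.leibniz]
            have h3 : D (((s l : ℕ) : K) + 1) = 0 := by
              have h4 : (((s l : ℕ) : K) + 1) = ((s l + 1 : ℕ) : K) := by push_cast; rfl
              rw [h4, Derivation.map_natCast]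
            rw [h3, smul_zero, zero_add, smul_eq_mul, mul_comm]
          have h3 : ∑ b, eval q (pderiv b (pderiv l G)) * D (q b) = 0 := by
            have h4 := congrArg (eval q) ((mem_forms.1 hG).1.pderiv (i := l)).sum_X_mul_pderiv
            rw [map_sum, map_nsmul, hq2 l, smul_zero] at h4
            have h5 : ∑ b, eval q (pderiv b (pderiv l G)) * D (q b) =
                r * ∑ b, eval q (X b * pderiv b (pderiv l G)) := by
              rw [Finset.mul_sum]
              refine Finset.sum_congr rfl fun b _ => ?_
              rw [hr b, map_mul, eval_X]
              ring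
            rw [h5, h4, mul_zero]
          rw [hq2 l, map_zero, h2, h3, add_zero] at h1
          exact h1.symm
        have hpsi : ∀ ψ : Fin 3 → K, ∑ l, ψ l * η l = 0 → ∀ F ∈ forms (low w S) P (e + 1),
            ∑ l, ψ l * eval q (pderiv l F) = 0 := by
          intro ψ hψ
          obtain ⟨E, hE⟩ := exists_grad q ψ
          have hE0 : ∀ F ∈ forms w P (e + 1), E F = 0 := by
            intro F hF
            obtain ⟨θ, hθ⟩ := f1 F hF
            rw [hE]
            have h1 : ∑ l, ψ l * eval q (pderiv l F) = θ * ∑ l, ψ l * η l := by
              rw [Finset.mul_sum]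
              refine Finset.sum_congr rfl fun l _ => ?_
              rw [hθ l]
              ring
            rw [h1, hψ, mul_zero]
          have h2 := step4E (S := S) hsurj E hE0 fun k hk => by
            obtain ⟨D, hD⟩ := exists_move hP k
            have hk1 := hS1 k hk
            rw [hk1]
            rcases hGS k hk with h | h
            · exact h.elim
            · refine step3B (m := 0) hk1 D hD E hE0 hG (fun a => ?_) fun h' hh => ?_
              · rw [hE]
                exact Finset.sum_eq_zero fun l _ => by rw [hDG k hk a (D a) (hD a) l, mul_zero]
              · have h7 := h h' (by rw [hk1]; exact hh)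
                rwa [hk1] at h7
          intro F hF
          rw [← hE]
          exact h2 F hF
        by_cases hη : ∃ c, η c ≠ 0
        · obtain ⟨c, hc⟩ := hη
          refine ⟨η, fun F hF => ⟨eval q (pderiv c F) / η c, fun a => ?_⟩⟩
          rw [div_mul_eq_mul_div, eq_div_iff hc]
          by_cases hac : a = c
          · rw [hac]
          · have h1 := hpsi (Pi.single a (η c) - Pi.single c (η a)) (by
              simp only [Pi.sub_apply, sub_mul, Finset.sum_sub_distrib]
              rw [Finset.sum_eq_single a, Finset.sum_eq_single c, Pi.single_eq_same,
                Pi.single_eq_same]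
              · ring
              · intro b _ hb
                rw [Pi.single_eq_of_ne hb, zero_mul]
              · intro h
                exact absurd (Finset.mem_univ c) h
              · intro b _ hb
                rw [Pi.single_eq_of_ne hb, zero_mul]
              · intro h
                exact absurd (Finset.mem_univ a) h) F hF
            simp only [Pi.sub_apply, sub_mul, Finset.sum_sub_distrib] at h1
            rw [Finset.sum_eq_single a, Finset.sum_eq_single c, Pi.single_eq_same,
              Pi.single_eq_same] at h1
            · linear_combination h1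
            · intro b _ hb
              rw [Pi.single_eq_of_ne hb, zero_mul]
            · intro h
              exact absurd (Finset.mem_univ c) h
            · intro b _ hb
              rw [Pi.single_eq_of_ne hb, zero_mul]
            · intro h
              exact absurd (Finset.mem_univ a) h
        · push Not at hη
          refine ⟨0, fun F hF => ⟨0, fun a => ?_⟩⟩
          have h1 := hpsi (Pi.single a 1) (Finset.sum_eq_zero fun l _ => by rw [hη l, mul_zero]) F hF
          rw [Finset.sum_eq_single a, Pi.single_eq_same, one_mul] at h1
          · rw [h1, zero_mul]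
          · intro b _ hb
            rw [Pi.single_eq_of_ne hb, zero_mul]
          · intro h
            exact absurd (Finset.mem_univ a) h
    obtain ⟨η', f5⟩ := f4
    -- lower all the other multiplicities
    have f6 : ∀ k ∈ Finset.univ.filter (fun k => 0 < low w S k),
        ∀ H ∈ forms (Function.update (low w S) k (low w S k - 1)) P (e + 1), eval q H = 0 := by
      intro k hk
      have hk0 : 0 < low w S k := (Finset.mem_filter.1 hk).2
      have hkS : k ∉ S := by
        intro h
        rw [hlw0 k h] at hk0
        omega
      obtain ⟨m, hm⟩ : ∃ m, low w S k = m + 1 := ⟨low w S k - 1, by omega⟩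
      obtain ⟨D, hD⟩ := exists_move hP k
      have h5 := step3 (w := low w S) (P := P) (d := e + 1) hm (fun h hh => lift hm (by
        have := hup k hkS
        rwa [← hlw1 k hkS, hm] at this) hh) D hD q f3 η' f5
      have h6 : low w S k - 1 = m := by omega
      rw [h6]
      exact h5
    have f7 := step4 (w := low w S) (P := P) (d := e + 1)
      (S := Finset.univ.filter (fun k => 0 < low w S k)) hsurju q f3 f6
    have hlw : low (low w S) (Finset.univ.filter (fun k => 0 < low w S k)) =
        fun i => low w S i - 1 := by
      funext i
      conv_lhs => unfold low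
      by_cases hi : 0 < low w S i
      · rw [if_pos (Finset.mem_filter.2 ⟨Finset.mem_univ i, hi⟩)]
        rfl
      · rw [if_neg]
        · have : low w S i = 0 := by omega
          rw [this]
          exact this
        · intro h
          exact hi (Finset.mem_filter.1 h).2
    rw [hlw] at f7
    obtain ⟨F, hF, hF'⟩ := bpf hlow q hq (fun i _ => hqP i)
    exact hF' (f7 F hF)
  · intro i hi v hv
    obtain ⟨a, ha⟩ : ∃ a, v a ≠ 0 := by
      by_contra hcon2
      push Not at hcon2
      exact hv (funext hcon2)
    obtain ⟨H, hH, hH'⟩ := lift (L := K) (w := low w S) (P := P) (d := e + 1) (k := i)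
      (hlw1 i hi) (hup i hi) (h := X a ^ (w i)) (by
        have := (isHomogeneous_X K a).pow (w i)
        rwa [one_mul] at this)
    refine ⟨H, hH, ?_⟩
    rw [hH', map_pow, eval_X]
    exact pow_ne_zero _ ha

end Pool.Agent.K3h98.RL
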