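import Pool.Agent.K3h98.RL.Core
import Pool.Agent.K3h98.RL.Simple

set_option autoImplicit false

/-!
# Vectors with enough small multiplicities: all degrees
-/

namespace Pool.Agent.K3h98.RL

open MvPolynomial Pool.Agent.H248R5 Pool.Agent.H248R6 Pool.Agent.R873.SB Pool.Agent.K3h62.SI

theorem exists_succ {n : ℕ} {d : ℕ} {v : Fin n → ℕ} (h1 : 1 ≤ chi d v) {i : Fin n}
    (hi : 0 < v i) : ∃ e, d = e + 1 := by
  refine ⟨d - 1, ?_⟩
  have := mult_le h1 i
  omega

/-- The two cases: the virtual dimension is larger than all multiplicities, or the multiplicities have a large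
sum. -/
theorem smooth_cases {K : Type} [Field K] [CharZero K] {n μ d : ℕ} (hn : 0 < n) {v : Fin n → ℕ}
    (hv : ∀ i, v i ≤ μ) {P : Fin n → Fin 2 → K}
    (hP : AlgebraicIndependent ℚ (fun ij : Fin n × Fin 2 => P ij.1 ij.2))
    (hb : 27000 * ((μ : ℤ) + 3) ^ 2 ≤ ∑ i, (v i : ℤ) + 4 * |chi d v|) (h1 : 1 ≤ chi d v)
    (p : Fin n → Prop) [DecidablePred p]
    (hp : ∀ k, p k → (v k : ℤ) < chi d v ∨ (0 < v k → GeneralMember (forms v P d) (Spread v P k)))
    (h2 : 2 * (μ : ℤ) + 3 ≤ chi d v + ∑ i ∈ Finset.univ.filter p, (v i : ℤ)) :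
    GeneralMember (forms v P d) (SmoothMember v P) := by
  classical
  have hμ : (0 : ℤ) ≤ μ := Int.natCast_nonneg _
  rw [abs_of_nonneg (by linarith)] at hb
  by_cases hg : ∀ k, (v k : ℤ) + 1 ≤ chi d v
  · obtain ⟨F, hF, hF'⟩ := K3h62.SI.main (K := K) hn v hv
    refine ((hF' P (aeval_ne hP hF)).2 v (fun _ => le_rfl) d ⟨?_, hg⟩).2
    rw [abs_of_nonneg (by linarith)]
    nlinarith
  · push Not at hg
    obtain ⟨k, hk⟩ := hg
    have hkμ : (v k : ℤ) ≤ μ := by exact_mod_cast hv k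
    have hk0 : 0 < v k := by
      rcases Nat.eq_zero_or_pos (v k) with h | h
      · rw [h] at hk
        push_cast at hk
        linarith
      · exact h
    obtain ⟨e, rfl⟩ := exists_succ h1 hk0
    refine smooth_of_lower (μ := μ) hv (by nlinarith) hP
      (Finset.univ.filter (fun i => 0 < v i ∧ p i)) (fun k hk => ?_) h1 ?_
    · obtain ⟨h3, h4⟩ := (Finset.mem_filter.1 hk).2
      refine ⟨h3, ?_⟩
      rcases hp k h4 with h | h
      · exact Or.inl h
      · exact Or.inr (h h3)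
    · have e1 : ∑ i ∈ Finset.univ.filter (fun i => 0 < v i ∧ p i), (v i : ℤ) =
          ∑ i ∈ Finset.univ.filter p, (v i : ℤ) := by
        refine Finset.sum_subset (fun i hi => ?_) fun i hi hi' => ?_
        · exact Finset.mem_filter.2 ⟨Finset.mem_univ _, (Finset.mem_filter.1 hi).2.2⟩
        · have h3 := (Finset.mem_filter.1 hi).2
          by_contra hne
          exact hi' (Finset.mem_filter.2 ⟨Finset.mem_univ _, Nat.pos_of_ne_zero fun h => hne (by
            rw [h]; rfl), h3⟩)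
      rw [e1]
      exact h2

/-- The general member is smooth if the multiplicities smaller than the virtual dimension have a large sum. -/
theorem smooth_lt {K : Type} [Field K] [CharZero K] {n μ d : ℕ} (hn : 0 < n) {v : Fin n → ℕ}
    (hv : ∀ i, v i ≤ μ) {P : Fin n → Fin 2 → K}
    (hP : AlgebraicIndependent ℚ (fun ij : Fin n × Fin 2 => P ij.1 ij.2))
    (hb : 27000 * ((μ : ℤ) + 3) ^ 2 ≤ ∑ i, (v i : ℤ) + 4 * |chi d v|) (h1 : 1 ≤ chi d v)
    (h2 : 2 * (μ : ℤ) + 3 ≤ chi d v +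
      ∑ i ∈ Finset.univ.filter (fun i => (v i : ℤ) < chi d v), (v i : ℤ)) :
    GeneralMember (forms v P d) (SmoothMember v P) :=
  smooth_cases hn hv hP hb h1 (fun i => (v i : ℤ) < chi d v) (fun _ h => Or.inl h) h2

/-- The general member is smooth if it is reduced and if the multiplicities one and two have a large sum. -/
theorem smooth_sq {K : Type} [Field K] [CharZero K] [IsAlgClosed K] {n μ d : ℕ} (hn : 0 < n)
    {v : Fin n → ℕ} (hv : ∀ i, v i ≤ μ) {P : Fin n → Fin 2 → K}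
    (hP : AlgebraicIndependent ℚ (fun ij : Fin n × Fin 2 => P ij.1 ij.2))
    (hb : 27000 * ((μ : ℤ) + 3) ^ 2 ≤ ∑ i, (v i : ℤ) + 4 * |chi d v|) (h1 : 1 ≤ chi d v)
    (h2 : 2 * (μ : ℤ) + 3 ≤ chi d v +
      ∑ i ∈ Finset.univ.filter (fun i => v i ≤ 2), (v i : ℤ))
    {f : MvPolynomial (Fin 3) K} (hf : f ∈ forms v P d) (hsq : Squarefree f) :
    GeneralMember (forms v P d) (SmoothMember v P) :=
  smooth_cases hn hv hP hb h1 (fun i => v i ≤ 2) (fun k h => Or.inr fun h0 =>
    general_spread hP (by omega) hf hsq) h2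

/-- The general member is smooth if there are enough simple points. -/
theorem smooth_simple {K : Type} [Field K] [CharZero K] {n μ d : ℕ} (hn : 0 < n)
    {v : Fin n → ℕ} (hv : ∀ i, v i ≤ μ) {P : Fin n → Fin 2 → K}
    (hP : AlgebraicIndependent ℚ (fun ij : Fin n × Fin 2 => P ij.1 ij.2))
    (hb : 27000 * ((μ : ℤ) + 3) ^ 2 ≤ ∑ i, (v i : ℤ) + 4 * |chi d v|) (h1 : 1 ≤ chi d v)
    (h2 : ∀ k, (v k : ℤ) + 1 ≤ chi d v + (Finset.univ.filter (fun i => v i = 1)).card) :
    GeneralMember (forms v P d) (SmoothMember v P) := by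
  classical
  have hμ : (0 : ℤ) ≤ μ := Int.natCast_nonneg _
  rw [abs_of_nonneg (by linarith)] at hb
  by_cases hg : ∀ k, (v k : ℤ) + 1 ≤ chi d v
  · obtain ⟨F, hF, hF'⟩ := K3h62.SI.main (K := K) hn v hv
    refine ((hF' P (aeval_ne hP hF)).2 v (fun _ => le_rfl) d ⟨?_, hg⟩).2
    rw [abs_of_nonneg (by linarith)]
    nlinarith
  · push Not at hg
    obtain ⟨k, hk⟩ := hg
    have hkμ : (v k : ℤ) ≤ μ := by exact_mod_cast hv k
    have hk0 : 0 < v k := by
      rcases Nat.eq_zero_or_pos (v k) with h | h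
      · rw [h] at hk
        push_cast at hk
        linarith
      · exact h
    obtain ⟨e, rfl⟩ := exists_succ h1 hk0
    have hsum : 26000 * ((μ : ℤ) + 3) ^ 2 ≤ ∑ i, (v i : ℤ) := by nlinarith
    have hbig : 25000 * ((μ : ℤ) + 1 + 1) ^ 2 ≤ 26000 * ((μ : ℤ) + 3) ^ 2 := by nlinarith
    have hbig2 : 26000 * ((μ : ℤ) + 2) ^ 2 ≤ 27000 * ((μ : ℤ) + 3) ^ 2 := by nlinarith
    have hbig3 : 25000 * ((μ : ℤ) + 1 + 1) ^ 2 + 4 * μ + 4 ≤ 27000 * ((μ : ℤ) + 3) ^ 2 := by
      nlinarith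
    have hbig0 : 25000 * ((μ : ℤ) + 1) ^ 2 ≤ 26000 * ((μ : ℤ) + 3) ^ 2 := by nlinarith
    obtain ⟨S, hS⟩ : ∃ S : Finset (Fin n), S = Finset.univ.filter (fun i => v i = 1) := ⟨_, rfl⟩
    rw [← hS] at h2
    have hS1 : ∀ k ∈ S, v k = 1 := fun k hk => by
      rw [hS] at hk
      exact (Finset.mem_filter.1 hk).2
    have hSpos : ∀ k ∈ S, 0 < v k := fun k hk => by rw [hS1 k hk]; exact one_pos
    have hSs : ∑ k ∈ S, (v k : ℤ) = S.card := by
      rw [Finset.sum_congr rfl fun k hk => by rw [hS1 k hk]]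
      simp
    have hc := chi_low (e + 1) v S hSpos
    have hs := sum_low v S hSpos
    rw [hSs] at hc
    obtain ⟨u, hu⟩ : ∃ u, u = low v S := ⟨_, rfl⟩
    rw [← hu] at hc hs
    have hcard : (0 : ℤ) ≤ S.card := Int.natCast_nonneg _
    have huμ : ∀ i, u i ≤ μ := fun i => by
      rw [hu]
      exact (low_le v S i).trans (hv i)
    have huμ' : ∀ i, (u i : ℤ) ≤ μ := fun i => by exact_mod_cast huμ i
    have huv : ∀ i, (u i : ℤ) ≤ v i := fun i => by
      rw [hu]
      exact_mod_cast low_le v S i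
    have hsurj : Function.Surjective (ev v P (e + 1)) := by
      refine surj_of_ok (ok_of_generic hP _) hv (by linarith) ?_
      rw [abs_of_nonneg (by linarith)]
      linarith
    -- the system is not zero
    have hdim : (Module.finrank K ↥(forms v P (e + 1)) : ℤ) = max 0 (chi (e + 1) v) :=
      ok_of_generic hP v (e + 1) μ hv (by
        rw [abs_of_nonneg (by linarith)]
        linarith)
    obtain ⟨f, hf, hf0⟩ : ∃ f ∈ forms v P (e + 1), f ≠ 0 := by
      by_contra hcon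
      push Not at hcon
      have h8 : forms v P (e + 1) = ⊥ := (Submodule.eq_bot_iff _).2 hcon
      rw [h8, finrank_bot] at hdim
      have := le_max_right (0 : ℤ) (chi (e + 1) v)
      rw [← hdim] at this
      push_cast at this
      linarith
    have hlow : Function.Surjective (ev (fun i => u i - 1) P e) := by
      refine surj_pred hn huμ ⟨?_, fun k => ?_⟩ (ok_of_generic hP _)
      · rw [abs_of_nonneg (by linarith)]
        linarith
      · have := huv k
        have := h2 k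
        linarith
    rw [hu] at hlow
    refine simple_main hP S hS1 hsurj (fun k hk => ?_) hlow fun k hk =>
      general_spread_one hP (hS1 k hk) hf hf0
    have hvk : v k = low v S k := by
      unfold low
      rw [if_neg hk]
    rw [hvk, ← hu]
    have h3 := h2 k
    have h4 := hv k
    have h5 : ((u k : ℕ) : ℤ) = v k := by
      rw [hvk, ← hu]
    refine surj_of_ok (ok_of_generic hP _) (upd_le huμ k) (by rw [chi_upd]; linarith) ?_
    rw [chi_upd, K3h62.SI.sum_upd, abs_of_nonneg (by linarith)]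
    push_cast
    linarith

/-- The exceptional degree. -/
theorem unique_deg {n μ d d' : ℕ} {v : Fin n → ℕ} (hv : ∀ i, v i ≤ μ)
    (hb : 27000 * ((μ : ℤ) + 3) ^ 2 ≤ ∑ i, (v i : ℤ) + 4 * |chi d v|) (h1 : 1 ≤ chi d v)
    (h2 : chi d v ≤ 2 * μ + 2) (h1' : 1 ≤ chi d' v) (h2' : chi d' v ≤ 2 * μ + 2)
    (hb' : 27000 * ((μ : ℤ) + 3) ^ 2 ≤ ∑ i, (v i : ℤ) + 4 * |chi d' v|) : d = d' := by
  have hμ : (0 : ℤ) ≤ μ := Int.natCast_nonneg _
  have key : ∀ {a b : ℕ}, 27000 * ((μ : ℤ) + 3) ^ 2 ≤ ∑ i, (v i : ℤ) + 4 * |chi a v| →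
      1 ≤ chi a v → chi a v ≤ 2 * μ + 2 → chi b v ≤ 2 * μ + 2 → ¬ a < b := by
    intro a b hba ha ha2 hb2 hab
    rw [abs_of_nonneg (by linarith)] at hba
    have h3 := chi_mono v hab
    have h4 := two_chi a v
    have h5 : ∑ i, (v i : ℤ) ≤ ∑ i, (v i : ℤ) * (v i + 1) := by
      refine Finset.sum_le_sum fun i _ => ?_
      have : (0 : ℤ) ≤ v i := Int.natCast_nonneg _
      nlinarith
    have h6 : (0 : ℤ) ≤ a := Int.natCast_nonneg _
    have h7 : (a : ℤ) ≤ 2 * μ := by linarith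
    nlinarith
  rcases lt_trichotomy d d' with h | h | h
  · exact absurd h (key hb h1 h2 h2')
  · exact h
  · exact absurd h (key hb' h1' h2' h2)

end Pool.Agent.K3h98.RL
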