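import Pool.Agent.K3h98.RL.Bin
import Pool.Agent.TH167.SM.Gene2
import Pool.Agent.TH167.SM.SqGen

set_option autoImplicit false

/-!
# The leading forms of the general member at the points of multiplicity one and two
-/

namespace Pool.Agent.K3h98.RL

open MvPolynomial Pool.Agent.H248R5 Pool.Agent.H248R6 Pool.Agent.W609 Pool.Agent.W609.CR
  Pool.Agent.TH167.SH Pool.Agent.TH167.TT Pool.Agent.TH167.SM

/-- At a simple point the rigid curve has a nonzero linear form. -/
theorem rigid_one {K : Type} [Field K] [CharZero K] {s : ℕ} {P : Fin s → Fin 2 → K}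
    (hP : AlgebraicIndependent ℚ (fun ij : Fin s × Fin 2 => P ij.1 ij.2)) {d : ℕ}
    {w : Fin s → ℕ} (h1 : Module.finrank K ↥(VS (fun j => aff (P j)) w d) = 1)
    {f : MvPolynomial (Fin 3) K} (hf : f ∈ VS (fun j => aff (P j)) w d) (hf0 : f ≠ 0)
    {i : Fin s} (hi : w i = 1) : homogeneousComponent 1 (tau (P i) f) ≠ 0 := by
  classical
  intro h0
  have hfm := (mem_VS _ _ _ _).1 hf
  refine (exact_ord hP h1 hf hf0 i).2 ?_
  rw [hi, van_tau hfm.1, mem_pow_idealOfVars_iff']
  intro σ hσ
  have h3 := hfm.2 i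
  rw [hi] at h3
  have h3' := (van_tau hfm.1).1 h3
  rw [mem_pow_idealOfVars_iff'] at h3'
  rcases Nat.lt_or_ge σ.degree 1 with h4 | h4
  · exact h3' σ h4
  · have h5 := congrArg (coeff σ) h0
    rw [coeff_homogeneousComponent, if_pos (by omega), coeff_zero] at h5
    exact h5

theorem dG_sum_smul {K : Type} [Field K] [CharZero K] {σ : Type} (D : Fin 2 → Derivation ℚ K K)
    (v : Fin 2 → K) (g : MvPolynomial σ K) :
    dG (∑ a, v a • D a) g = ∑ a, v a • dG (D a) g := by
  ext s
  rw [coeff_dG, coeff_sum, Fin.sum_univ_two, Fin.sum_univ_two, Derivation.add_apply,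
    Derivation.smul_apply, Derivation.smul_apply, coeff_smul, coeff_smul, coeff_dG, coeff_dG]

/-- At a double point of a rigid reduced curve at generic points the tangent cone is not a double line. -/
theorem rigid_two {K : Type} [Field K] [CharZero K] {s : ℕ} {P : Fin s → Fin 2 → K}
    (hP : AlgebraicIndependent ℚ (fun ij : Fin s × Fin 2 => P ij.1 ij.2)) {d : ℕ}
    {w : Fin s → ℕ} (h1 : Module.finrank K ↥(VS (fun j => aff (P j)) w d) = 1)
    {f : MvPolynomial (Fin 3) K} (hf : f ∈ VS (fun j => aff (P j)) w d) (hf0 : f ≠ 0)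
    (hsq : Squarefree f) {i : Fin s} (hi : w i = 2) {v : Fin 2 → K} (hv : v ≠ 0)
    (hker : ∑ a, v a • pderiv a (homogeneousComponent 2 (tau (P i) f)) = 0) : False := by
  classical
  obtain ⟨c0, ν, hc0, hν, hcf⟩ := exists_norm hf hf0
  obtain ⟨g, hg⟩ : ∃ g, g = C c0 * f := ⟨_, rfl⟩
  rw [← hg] at hν hcf
  have hg0 : g ≠ 0 := by
    rw [hg]
    exact mul_ne_zero (fun h => hc0 (by rwa [C_eq_zero] at h)) hf0
  have hgm := (mem_VS _ _ _ _).1 hcf
  have hgsq : Squarefree g := by
    rw [hg]
    have hu : IsUnit (C c0 : MvPolynomial (Fin 3) K) := (isUnit_iff_ne_zero.2 hc0).map C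
    exact fun x hx => hsq x (hu.dvd_mul_left.1 hx)
  have hgk : ∑ a, v a • pderiv a (homogeneousComponent 2 (tau (P i) g)) = 0 := by
    have e : homogeneousComponent 2 (tau (P i) g) =
        C c0 * homogeneousComponent 2 (tau (P i) f) := by
      rw [hg, C_mul', C_mul', map_smul, map_smul]
    rw [e]
    have e2 : ∀ a, v a • pderiv a (C c0 * homogeneousComponent 2 (tau (P i) f)) =
        C c0 * (v a • pderiv a (homogeneousComponent 2 (tau (P i) f))) := by
      intro a
      rw [C_mul', C_mul', Derivation.map_smul, smul_comm]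
    rw [Finset.sum_congr rfl fun a _ => e2 a, ← Finset.mul_sum, hker, mul_zero]
  obtain ⟨E, hE⟩ := exists_move hP i
  obtain ⟨D, hD⟩ : ∃ D : Derivation ℚ K K, D = ∑ a : Fin 2, v a • E a := ⟨_, rfl⟩
  have hDP : ∀ b, D (P i b) = v b := by
    intro b
    rw [hD, Fin.sum_univ_two, Derivation.add_apply, Derivation.smul_apply, Derivation.smul_apply,
      hE, hE]
    fin_cases b <;> simp
  have hgf : g ∈ forms w P d := mem_forms_VS.1 hcf
  have hmv := fun a => move (m := 1) hi (E a) (hE a) hgf
  have hDg : dG D g ∈ forms (Function.update w i 1) P d := by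
    rw [hD, dG_sum_smul]
    exact Submodule.sum_mem _ fun a _ => Submodule.smul_mem _ _ (hmv a).1
  have hDg0 : homogeneousComponent 1 (tau (P i) (dG D g)) = 0 := by
    rw [hD, dG_sum_smul, map_sum, map_sum]
    have e3 : ∀ a, homogeneousComponent 1 (tau (P i) (v a • dG (E a) g)) =
        -(v a • pderiv a (homogeneousComponent 2 (tau (P i) g))) := by
      intro a
      rw [map_smul, map_smul, (hmv a).2, smul_neg]
    rw [Finset.sum_congr rfl fun a _ => e3 a, Finset.sum_neg_distrib, hgk, neg_zero]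
  have hDgw : dG D g ∈ VS (fun j => aff (P j)) w d := mem_forms_VS.2 (back hi hDg hDg0)
  have hz := rigid_der h1 hcf hν D hDgw
  have h2 : Van (aff (P i)) 2 g := by
    rw [← hi]
    exact hgm.2 i
  have h3 := sing_const D hgm.1 hg0 hgsq hz (p := P i)
    (Pool.Agent.TH167.TT.van_one.1 (Pool.Agent.TH167.SH.van_mono (by omega) h2))
    (fun l => Pool.Agent.TH167.SH.pd_mem h2 l)
  apply hv
  funext b
  have h4 := h3 b
  rw [hDP] at h4
  exact h4

/-- At the simple points the partial derivatives of the leading form of the general member span. -/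
theorem general_spread_one {K : Type} [Field K] [CharZero K] {s d : ℕ}
    {P : Fin s → Fin 2 → K}
    (hP : AlgebraicIndependent ℚ (fun ij : Fin s × Fin 2 => P ij.1 ij.2)) {w : Fin s → ℕ}
    {k : Fin s} (hk : w k = 1) {f : MvPolynomial (Fin 3) K} (hf : f ∈ forms w P d)
    (hf0 : f ≠ 0) : GeneralMember (forms w P d) (Spread w P k) := by
  classical
  intro N b
  -- the system is not zero
  obtain ⟨n, rfl⟩ : ∃ n, N = n + 1 := by
    refine ⟨N - 1, ?_⟩
    rcases Nat.eq_zero_or_pos N with h0 | h0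
    · exfalso
      subst h0
      obtain ⟨c, hc⟩ := exists_comb b hf
      rw [Finset.univ_eq_empty, Finset.sum_empty] at hc
      exact hf0 hc
    · omega
  have e : forms w P d = VS (fun j => aff (P j)) w d := by
    ext g
    exact mem_forms_VS.symm
  obtain ⟨b', hb'⟩ : ∃ b' : Module.Basis (Fin (n + 1)) K ↥(VS (fun j => aff (P j)) w d),
      ∀ j, (b' j : MvPolynomial (Fin 3) K) = b j := by
    refine ⟨b.map (LinearEquiv.ofEq _ _ e), fun j => ?_⟩
    rw [Module.Basis.map_apply]
    rfl
  obtain ⟨L, i1, i2, i3, i4, Q, t, D, hPQ, hD, hK, hN, h1, hG⟩ := gen_member hP b'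
  obtain ⟨G, hGd⟩ : ∃ G, G = ∑ j, C (t j) *
    map (algebraMap K L) (b' j : MvPolynomial (Fin 3) K) := ⟨_, rfl⟩
  rw [← hGd] at hG
  have hG0 : G ≠ 0 := by
    intro h0
    have hne : (b 0 : MvPolynomial (Fin 3) K) ≠ 0 := fun h => b.ne_zero 0 (Subtype.ext h)
    have h2 : dG (D 0) G = map (algebraMap K L) (b 0 : MvPolynomial (Fin 3) K) := by
      ext s
      rw [coeff_dG, hGd, coeff_sum, map_sum, coeff_map]
      have e5 : ∀ j, D 0 (coeff s (C (t j) *
          map (algebraMap K L) (b' j : MvPolynomial (Fin 3) K))) =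
          algebraMap K L (coeff s (b' j : MvPolynomial (Fin 3) K)) * D 0 (t j) := by
        intro j
        rw [coeff_C_mul, coeff_map, Derivation.leibniz, hK, smul_zero, zero_add, smul_eq_mul]
      rw [Finset.sum_congr rfl fun j _ => e5 j, Finset.sum_eq_single 0]
      · rw [hD, if_pos rfl, mul_one, hb']
      · intro j _ hj
        rw [hD, if_neg (by tauto), mul_zero]
      · intro h
        exact absurd (Finset.mem_univ _) h
    rw [h0, dG_zero] at h2
    exact hne (map_injective _ (algebraMap K L).injective (by rw [← h2, map_zero]))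
  obtain ⟨p, hp⟩ : ∃ p : Fin (n + 1) → MvPolynomial (Fin 2) K,
    p = fun j => homogeneousComponent (w k) (tau (P k) (b j : MvPolynomial (Fin 3) K)) := ⟨_, rfl⟩
  -- the leading form of the generic member
  have hlead : ∀ σ : Fin 2 →₀ ℕ, coeff σ (homogeneousComponent (w k)
      (tau (PPt P Q (finSumFinEquiv (Sum.inl k))) G)) =
      aeval t (∑ j, C (coeff σ (p j)) * X j : MvPolynomial (Fin (n + 1)) K) := by
    intro σ
    rw [PPt_inl, hGd, map_sum, map_sum, coeff_sum, map_sum]
    refine Finset.sum_congr rfl fun j _ => ?_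
    rw [C_mul', map_smul, map_smul, coeff_smul, tau_map, map_mul, aeval_X, algHom_C, hp, hb',
      coeff_homogeneousComponent, coeff_homogeneousComponent, coeff_map, smul_eq_mul, mul_comm]
    split_ifs
    · rfl
    · rw [map_zero]
  -- the leading form of a member
  have hlead2 : ∀ (σ : Fin 2 →₀ ℕ) (x : Fin (n + 1) → K),
      coeff σ (homogeneousComponent (w k) (tau (P k) (∑ j, x j • (b j : MvPolynomial (Fin 3) K)))) =
      eval x (∑ j, C (coeff σ (p j)) * X j : MvPolynomial (Fin (n + 1)) K) := by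
    intro σ x
    rw [map_sum, map_sum, coeff_sum, map_sum]
    refine Finset.sum_congr rfl fun j _ => ?_
    rw [map_smul, map_smul, coeff_smul, map_mul, eval_X, eval_C, hp, smul_eq_mul, mul_comm]
  have hww : wwt w (fun k : Fin (n + 4) => if k.1 < n then 1 else 0)
      (finSumFinEquiv (Sum.inl k)) = w k := wwt_inl _ _ _
  have hne := rigid_one hPQ h1 hG hG0 (i := finSumFinEquiv (Sum.inl k)) (by rw [hww, hk])
  have hhom : (homogeneousComponent 1
      (tau (PPt P Q (finSumFinEquiv (Sum.inl k))) G)).IsHomogeneous 1 :=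
    homogeneousComponent_isHomogeneous _ _
  rw [hk] at hlead hlead2
  obtain ⟨a, ha⟩ : ∃ a : Fin 2, (∑ j, C (coeff (Finsupp.single a 1) (p j)) * X j :
      MvPolynomial (Fin (n + 1)) K) ≠ 0 := by
    by_contra hcon
    push Not at hcon
    apply hne
    rw [lin_eq hhom, hlead, hlead, hcon, hcon, map_zero, C_0, zero_mul, zero_mul, add_zero]
  refine ⟨_, ha, fun x hx => ?_⟩
  rw [← hlead2] at hx
  intro h hh
  rw [hk] at hh ⊢
  exact span_one (homogeneousComponent_isHomogeneous _ _) hx h hh


/-- At the points of multiplicity one and two the partial derivatives of the leading form of the general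
member span. -/
theorem general_spread {K : Type} [Field K] [CharZero K] [IsAlgClosed K] {s d : ℕ}
    {P : Fin s → Fin 2 → K}
    (hP : AlgebraicIndependent ℚ (fun ij : Fin s × Fin 2 => P ij.1 ij.2)) {w : Fin s → ℕ}
    {k : Fin s} (hk : w k = 1 ∨ w k = 2) {f : MvPolynomial (Fin 3) K} (hf : f ∈ forms w P d)
    (hsq : Squarefree f) : GeneralMember (forms w P d) (Spread w P k) := by
  classical
  intro N b
  -- the system is not zero
  obtain ⟨n, rfl⟩ : ∃ n, N = n + 1 := by
    refine ⟨N - 1, ?_⟩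
    rcases Nat.eq_zero_or_pos N with h0 | h0
    · exfalso
      subst h0
      obtain ⟨c, hc⟩ := exists_comb b hf
      rw [Finset.univ_eq_empty, Finset.sum_empty] at hc
      exact hsq.ne_zero hc
    · omega
  have e : forms w P d = VS (fun j => aff (P j)) w d := by
    ext g
    exact mem_forms_VS.symm
  obtain ⟨b', hb'⟩ : ∃ b' : Module.Basis (Fin (n + 1)) K ↥(VS (fun j => aff (P j)) w d),
      ∀ j, (b' j : MvPolynomial (Fin 3) K) = b j := by
    refine ⟨b.map (LinearEquiv.ofEq _ _ e), fun j => ?_⟩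
    rw [Module.Basis.map_apply]
    rfl
  obtain ⟨L, i1, i2, i3, i4, Q, t, D, hPQ, hD, hK, hN, h1, hG⟩ := gen_member hP b'
  obtain ⟨G, hGd⟩ : ∃ G, G = ∑ j, C (t j) *
    map (algebraMap K L) (b' j : MvPolynomial (Fin 3) K) := ⟨_, rfl⟩
  rw [← hGd] at hG
  have hfc : f = ∑ j, C (b'.repr ⟨f, e ▸ hf⟩ j) * (b' j : MvPolynomial (Fin 3) K) := by
    have h2 := congrArg Subtype.val (b'.sum_repr ⟨f, e ▸ hf⟩)
    simp only [Submodule.coe_sum, Submodule.coe_smul] at h2
    conv_lhs => rw [← h2]
    exact Finset.sum_congr rfl fun j _ => by rw [smul_eq_C_mul]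
  have hGsq : Squarefree G := by
    rw [hGd]
    refine sq_gen (d := d) hD hK (fun j => ((mem_VS _ _ _ _).1 (b' j).2).1)
      (c := fun j => b'.repr ⟨f, e ▸ hf⟩ j) ?_
    rw [← hfc]
    exact hsq
  have hG0 : G ≠ 0 := hGsq.ne_zero
  obtain ⟨p, hp⟩ : ∃ p : Fin (n + 1) → MvPolynomial (Fin 2) K,
    p = fun j => homogeneousComponent (w k) (tau (P k) (b j : MvPolynomial (Fin 3) K)) := ⟨_, rfl⟩
  -- the leading form of the generic member
  have hlead : ∀ σ : Fin 2 →₀ ℕ, coeff σ (homogeneousComponent (w k)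
      (tau (PPt P Q (finSumFinEquiv (Sum.inl k))) G)) =
      aeval t (∑ j, C (coeff σ (p j)) * X j : MvPolynomial (Fin (n + 1)) K) := by
    intro σ
    rw [PPt_inl, hGd, map_sum, map_sum, coeff_sum, map_sum]
    refine Finset.sum_congr rfl fun j _ => ?_
    rw [C_mul', map_smul, map_smul, coeff_smul, tau_map, map_mul, aeval_X, algHom_C, hp, hb',
      coeff_homogeneousComponent, coeff_homogeneousComponent, coeff_map, smul_eq_mul, mul_comm]
    split_ifs
    · rfl
    · rw [map_zero]
  -- the leading form of a member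
  have hlead2 : ∀ (σ : Fin 2 →₀ ℕ) (x : Fin (n + 1) → K),
      coeff σ (homogeneousComponent (w k) (tau (P k) (∑ j, x j • (b j : MvPolynomial (Fin 3) K)))) =
      eval x (∑ j, C (coeff σ (p j)) * X j : MvPolynomial (Fin (n + 1)) K) := by
    intro σ x
    rw [map_sum, map_sum, coeff_sum, map_sum]
    refine Finset.sum_congr rfl fun j _ => ?_
    rw [map_smul, map_smul, coeff_smul, map_mul, eval_X, eval_C, hp, smul_eq_mul, mul_comm]
  have hww : wwt w (fun k : Fin (n + 4) => if k.1 < n then 1 else 0)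
      (finSumFinEquiv (Sum.inl k)) = w k := wwt_inl _ _ _
  rcases hk with hk | hk
  · have hne := rigid_one hPQ h1 hG hG0 (i := finSumFinEquiv (Sum.inl k)) (by rw [hww, hk])
    have hhom : (homogeneousComponent 1
        (tau (PPt P Q (finSumFinEquiv (Sum.inl k))) G)).IsHomogeneous 1 :=
      homogeneousComponent_isHomogeneous _ _
    rw [hk] at hlead hlead2
    obtain ⟨a, ha⟩ : ∃ a : Fin 2, (∑ j, C (coeff (Finsupp.single a 1) (p j)) * X j :
        MvPolynomial (Fin (n + 1)) K) ≠ 0 := by
      by_contra hcon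
      push Not at hcon
      apply hne
      rw [lin_eq hhom, hlead, hlead, hcon, hcon, map_zero, C_0, zero_mul, zero_mul, add_zero]
    refine ⟨_, ha, fun x hx => ?_⟩
    rw [← hlead2] at hx
    intro h hh
    rw [hk] at hh ⊢
    exact span_one (homogeneousComponent_isHomogeneous _ _) hx h hh
  · have hhom : (homogeneousComponent 2
        (tau (PPt P Q (finSumFinEquiv (Sum.inl k))) G)).IsHomogeneous 2 :=
      homogeneousComponent_isHomogeneous _ _
    rw [hk] at hlead hlead2
    refine ⟨4 * (∑ j, C (coeff (Finsupp.single 0 2) (p j)) * X j) *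
      (∑ j, C (coeff (Finsupp.single 1 2) (p j)) * X j) -
        (∑ j, C (coeff (Finsupp.single 0 1 + Finsupp.single 1 1) (p j)) * X j) ^ 2,
      fun h0 => ?_, fun x hx => ?_⟩
    · have h2 := congrArg (aeval t) h0
      rw [map_sub, map_mul, map_mul, map_pow, ← hlead, ← hlead, ← hlead, map_zero, map_ofNat] at h2
      obtain ⟨v, hv, hker⟩ := ker_two hhom h2
      exact rigid_two hPQ h1 hG hG0 hGsq (i := finSumFinEquiv (Sum.inl k)) (by rw [hww, hk]) hv hker
    · rw [map_sub, map_mul, map_mul, map_pow, ← hlead2, ← hlead2, ← hlead2, map_ofNat] at hx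
      intro h hh
      rw [hk] at hh ⊢
      exact span_two (homogeneousComponent_isHomogeneous _ _) hx h hh

end Pool.Agent.K3h98.RL
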