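import Pool.Agent.TH167.SM.Gene2
import Pool.Agent.TH167.SM.SqGen

set_option autoImplicit false

/-!
# The points of multiplicity at most two
-/

namespace Pool.Agent.K3h98.RL

open MvPolynomial Pool.Agent.H248R5 Pool.Agent.H248R6 Pool.Agent.W609 Pool.Agent.W609.CR
  Pool.Agent.TH167.SH Pool.Agent.TH167.TT Pool.Agent.TH167.SM

/-- In a system with a reduced member the points of multiplicity at most two impose independent
conditions on the system defined by the other points. -/
theorem small_indep {K : Type} [Field K] [CharZero K] [IsAlgClosed K] {s d : ℕ}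
    {P : Fin s → Fin 2 → K}
    (hP : AlgebraicIndependent ℚ (fun ij : Fin s × Fin 2 => P ij.1 ij.2)) {w : Fin s → ℕ}
    {f : MvPolynomial (Fin 3) K} (hf : f ∈ VS (fun j => aff (P j)) w d) (hsq : Squarefree f)
    (S : Finset (Fin s)) (hS : ∀ j, j ∉ S → w j ≤ 2) :
    Module.finrank K ↥(VS (fun j => aff (P j)) w d) +
        ∑ j, (if j ∈ S then 0 else (w j + 1).choose 2) ≤
      Module.finrank K ↥(VS (fun j => aff (P j)) (fun j => if j ∈ S then w j else 0) d) := by
  classical
  obtain ⟨N, b⟩ : ∃ N, Nonempty (Module.Basis (Fin N) K ↥(VS (fun j => aff (P j)) w d)) := by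
    have hfin : Module.Finite K ↥(VS (fun j => aff (P j)) w d) := by
      rw [vs_eq_forms]
      exact forms_finite w P d
    exact ⟨_, ⟨Module.finBasis K _⟩⟩
  obtain ⟨b⟩ := b
  obtain ⟨n, rfl⟩ : ∃ n, N = n + 1 := by
    refine ⟨N - 1, ?_⟩
    rcases Nat.eq_zero_or_pos N with h0 | h0
    · exfalso
      subst h0
      have h2 := congrArg Subtype.val (b.sum_repr ⟨f, hf⟩)
      rw [Finset.univ_eq_empty, Finset.sum_empty] at h2
      exact hsq.ne_zero h2.symm
    · omega
  obtain ⟨L, i1, i2, i3, i4, Q, t, D, hPQ, hD, hK, hN, h1, hG⟩ := gen_member hP b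
  obtain ⟨G, hGd⟩ : ∃ G, G = ∑ j, C (t j) *
    map (algebraMap K L) (b j : MvPolynomial (Fin 3) K) := ⟨_, rfl⟩
  rw [← hGd] at hG
  have hfc : f = ∑ j, C (b.repr ⟨f, hf⟩ j) * (b j : MvPolynomial (Fin 3) K) := by
    have h2 := congrArg Subtype.val (b.sum_repr ⟨f, hf⟩)
    simp only [Submodule.coe_sum, Submodule.coe_smul] at h2
    conv_lhs => rw [← h2]
    exact Finset.sum_congr rfl fun j _ => by rw [smul_eq_C_mul]
  have hGsq : Squarefree G := by
    rw [hGd]
    refine sq_gen (d := d) hD hK (fun j => ((mem_VS _ _ _ _).1 (b j).2).1)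
      (c := fun j => b.repr ⟨f, hf⟩ j) ?_
    rw [← hfc]
    exact hsq
  have h2 := tlem hPQ h1 hG hGsq.ne_zero hGsq (S.map ⟨fun i => finSumFinEquiv (Sum.inl i),
    fun i j h => Sum.inl_injective (finSumFinEquiv.injective h)⟩) (by
      rw [forall_fin]
      refine ⟨fun i hi => ?_, fun i _ => ?_⟩
      · rw [wwt_inl]
        exact hS i fun h => hi (Finset.mem_map.2 ⟨i, h, rfl⟩)
      · rw [wwt_inr]
        split_ifs <;> omega)
  have hin : ∀ i, (finSumFinEquiv (Sum.inl i) : Fin (s + (n + 4))) ∈
      S.map ⟨fun i => (finSumFinEquiv (Sum.inl i) : Fin (s + (n + 4))),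
        fun i j h => Sum.inl_injective (finSumFinEquiv.injective h)⟩ ↔ i ∈ S := by
    intro i
    rw [Finset.mem_map]
    constructor
    · rintro ⟨j, hj, h⟩
      rwa [← Sum.inl_injective (finSumFinEquiv.injective h)]
    · exact fun h => ⟨i, h, rfl⟩
  have hin2 : ∀ k, (finSumFinEquiv (Sum.inr k) : Fin (s + (n + 4))) ∉
      S.map ⟨fun i => (finSumFinEquiv (Sum.inl i) : Fin (s + (n + 4))),
        fun i j h => Sum.inl_injective (finSumFinEquiv.injective h)⟩ := by
    intro k h
    obtain ⟨j, -, h⟩ := Finset.mem_map.1 h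
    exact Sum.inl_ne_inr (finSumFinEquiv.injective h)
  have e1 : (fun j => if j ∈ S.map ⟨fun i => (finSumFinEquiv (Sum.inl i) : Fin (s + (n + 4))),
        fun i j h => Sum.inl_injective (finSumFinEquiv.injective h)⟩ then
        wwt w (fun k : Fin (n + 4) => if k.1 < n then 1 else 0) j else 0) =
      wwt (fun j => if j ∈ S then w j else 0) (fun _ => 0) := by
    funext j
    revert j
    rw [forall_fin]
    refine ⟨fun i => ?_, fun k => ?_⟩
    · rw [wwt_inl, wwt_inl]
      by_cases hi : i ∈ S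
      · rw [if_pos ((hin i).2 hi), if_pos hi]
      · rw [if_neg (fun h => hi ((hin i).1 h)), if_neg hi]
    · rw [wwt_inr, wwt_inr, if_neg (hin2 k)]
  rw [e1, VS_PPt, finrank_ext (P' := fun j a => algebraMap K L (P j a)) hP (alg_ind_map hP)] at h2
  have e2 : ∑ j, (if j ∈ S.map ⟨fun i => (finSumFinEquiv (Sum.inl i) : Fin (s + (n + 4))),
        fun i j h => Sum.inl_injective (finSumFinEquiv.injective h)⟩ then 0 else
        (wwt w (fun k : Fin (n + 4) => if k.1 < n then 1 else 0) j + 1).choose 2) =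
      ∑ j, (if j ∈ S then 0 else (w j + 1).choose 2) + n := by
    rw [← Equiv.sum_comp finSumFinEquiv, Fintype.sum_sum_type]
    congr 1
    · refine Finset.sum_congr rfl fun i _ => ?_
      rw [wwt_inl]
      by_cases hi : i ∈ S
      · rw [if_pos ((hin i).2 hi), if_pos hi]
      · rw [if_neg (fun h => hi ((hin i).1 h)), if_neg hi]
    · have e3 : ∀ k : Fin (n + 4), (if (finSumFinEquiv (Sum.inr k) : Fin (s + (n + 4))) ∈
          S.map ⟨fun i => (finSumFinEquiv (Sum.inl i) : Fin (s + (n + 4))),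
          fun i j h => Sum.inl_injective (finSumFinEquiv.injective h)⟩ then 0 else
          (wwt w (fun k : Fin (n + 4) => if k.1 < n then 1 else 0)
            (finSumFinEquiv (Sum.inr k)) + 1).choose 2) = if k.1 < n then 1 else 0 := by
        intro k
        rw [if_neg (hin2 k), wwt_inr]
        split_ifs <;> rfl
      rw [Finset.sum_congr rfl fun k _ => e3 k, ← Finset.card_filter]
      have e4 : (Finset.univ.filter fun k : Fin (n + 4) => k.1 < n) =
          (Finset.univ : Finset (Fin n)).map (Fin.castAddEmb 4) := by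
        ext k
        rw [Finset.mem_filter, Finset.mem_map]
        constructor
        · rintro ⟨-, hk⟩
          exact ⟨⟨k.1, hk⟩, Finset.mem_univ _, Fin.ext rfl⟩
        · rintro ⟨j, -, rfl⟩
          exact ⟨Finset.mem_univ _, j.2⟩
      rw [e4, Finset.card_map, Finset.card_univ, Fintype.card_fin]
  rw [e2] at h2
  rw [Module.finrank_eq_card_basis b, Fintype.card_fin]
  omega

end Pool.Agent.K3h98.RL
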