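import Pool.Agent.H248R6.Dim
import Pool.Agent.K3h98.RL.Gen
import Pool.Agent.K3h98.RL.Seg

set_option autoImplicit false
set_option linter.unusedSectionVars false

/-!
# Base points of a system with additional generic simple points
-/

namespace Pool.Agent.K3h98.RL

open MvPolynomial Pool.Agent.H248R5 Pool.Agent.H248R6

/-- Independent conditions remain independent in the next degree. -/
theorem surj_succ {K : Type*} [Field K] {n : ℕ} {w : Fin n → ℕ} {P : Fin n → Fin 2 → K} {e : ℕ}
    (h : Function.Surjective (ev w P e)) : Function.Surjective (ev w P (e + 1)) := by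
  intro y
  obtain ⟨⟨H, hH⟩, hHy⟩ := h y
  have hH' : H.IsHomogeneous e := hH
  refine ⟨⟨X 2 * H, ?_⟩, ?_⟩
  · have := (isHomogeneous_X K (2 : Fin 3)).mul hH'
    rw [add_comm] at this
    exact this
  · funext i
    rw [← hHy, ev_apply, ev_apply]
    show Ideal.Quotient.mk _ (tau (P i) (X 2 * H)) = _
    rw [map_mul, tau_X2, one_mul]

/-- A generic point is not a base point of a system which is not zero. -/
theorem generic_nonbase {K : Type} [Field K] [CharZero K] {n d : ℕ} {P : Fin n → Fin 2 → K}
    (hP : AlgebraicIndependent ℚ (fun ij : Fin n × Fin 2 => P ij.1 ij.2)) {v : Fin n → ℕ}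
    {k : Fin n} (hk : v k = 0) {F0 : MvPolynomial (Fin 3) K} (hF0 : F0 ∈ forms v P d)
    (hne : F0 ≠ 0) : ∃ F ∈ forms v P d, eval (![P k 0, P k 1, 1] : Fin 3 → K) F ≠ 0 := by
  classical
  by_contra hcon
  push Not at hcon
  have hfin := forms_finite v P d
  have hpos : 0 < Module.finrank K ↥(forms v P d) := by
    have : Nontrivial ↥(forms v P d) := ⟨⟨⟨F0, hF0⟩, 0, fun h => hne (congrArg Subtype.val h)⟩⟩
    exact Module.finrank_pos_iff.2 this
  rw [← W609.CR.vs_eq_forms] at hpos
  have h1 := TH167.TT.simple_drop hP hk hpos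
  rw [W609.CR.vs_eq_forms, W609.CR.vs_eq_forms] at h1
  have h2 : forms v P d ≤ forms (Function.update v k 1) P d := by
    intro F hF
    obtain ⟨a1, a2⟩ := mem_forms.1 hF
    refine mem_forms.2 ⟨a1, fun i => ?_⟩
    by_cases hi : i = k
    · subst hi
      rw [Function.update_self, pow_one, ← pow_one (idealOfVars (Fin 2) K),
        mem_pow_idealOfVars_iff']
      intro s hs
      have hs0 : s = 0 := by
        rw [← Finsupp.degree_eq_zero_iff]
        omega
      subst hs0
      have h3 := hcon F hF
      rw [← constCoeff_tau] at h3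
      exact h3
    · rw [Function.update_of_ne hi]
      exact a2 i
  have hfin2 := forms_finite (Function.update v k 1) P d
  have h3 := Submodule.finrank_mono h2
  omega

theorem hc_zero {K : Type*} [Field K] (p : Fin 2 → K) (G : MvPolynomial (Fin 3) K) :
    homogeneousComponent 0 (tau p G) = C (eval (![p 0, p 1, 1] : Fin 3 → K) G) := by
  rw [homogeneousComponent_zero]
  congr 1
  exact constCoeff_tau p G

/-- The value at the moving point. -/
theorem ev_move {K : Type*} [Field K] [CharZero K] {n d : ℕ} {u : Fin n → ℕ}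
    {P : Fin n → Fin 2 → K} {k : Fin n} (hk : u k = 1) {D : Fin 2 → Derivation ℚ K K}
    (hD : ∀ a i b, D a (P i b) = if i = k ∧ b = a then 1 else 0) {F : MvPolynomial (Fin 3) K}
    (hF : F ∈ forms u P d) {c : Fin 2 → K}
    (hc : homogeneousComponent 1 (tau (P k) F) = ∑ a, c a • X a) (a : Fin 2) :
    dG (D a) F ∈ forms (Function.update u k 0) P d ∧
      eval (![P k 0, P k 1, 1] : Fin 3 → K) (dG (D a) F) = -c a := by
  have h1 := move (m := 0) hk (D a) (hD a) hF
  refine ⟨h1.1, ?_⟩
  have h2 := h1.2
  rw [zero_add, hc, hc_zero] at h2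
  have h3 : pderiv a (∑ b, c b • X b : MvPolynomial (Fin 2) K) = C (c a) := by
    rw [Fin.sum_univ_two, map_add, Derivation.map_smul, Derivation.map_smul, pderiv_X, pderiv_X]
    fin_cases a
    · simp [C_eq_smul_one]
    · simp [C_eq_smul_one]
  rw [h3, ← C_neg] at h2
  exact C_injective _ _ h2

section kappa

variable {K : Type*} [Field K] [CharZero K] {n d : ℕ} {u : Fin n → ℕ} {P : Fin n → Fin 2 → K}

theorem exists_kappa {k : Fin n} (hk : u k = 1) (hS : Function.Surjective (ev u P d))
    (E : MvPolynomial (Fin 3) K →ₗ[K] K) (h0 : ∀ F ∈ forms u P d, E F = 0) :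
    ∃ κ : K, ∀ H ∈ forms (Function.update u k 0) P d,
      E H = κ * eval (![P k 0, P k 1, 1] : Fin 3 → K) H := by
  classical
  obtain ⟨H1, hH1, hH1'⟩ := lift (L := K) (w := Function.update u k 0) (P := P) (d := d) (k := k)
    (m := 0) (by rw [Function.update_self]) (by
      have e : Function.update (Function.update u k 0) k (0 + 1) = u := by
        rw [Function.update_idem, zero_add, ← hk, Function.update_eq_self]
      rw [e]
      exact hS) (h := 1) (isHomogeneous_one _ _)
  rw [hc_zero, ← C_1] at hH1'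
  have h1 := C_injective _ _ hH1'
  refine ⟨E H1, fun H hH => ?_⟩
  have h2 : H - eval (![P k 0, P k 1, 1] : Fin 3 → K) H • H1 ∈ forms u P d := by
    refine back (m := 0) hk (Submodule.sub_mem _ hH (Submodule.smul_mem _ _ hH1)) ?_
    rw [hc_zero, map_sub, smul_eval, h1, mul_one, sub_self, C_0]
  have h3 := h0 _ h2
  rw [map_sub, map_smul, smul_eq_mul, sub_eq_zero] at h3
  rw [h3, mul_comm]

theorem ev_zero {k : Fin n} (hk : 0 < u k) {F : MvPolynomial (Fin 3) K} (hF : F ∈ forms u P d) :
    eval (![P k 0, P k 1, 1] : Fin 3 → K) F = 0 := by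
  have h1 := (mem_pow_idealOfVars_iff' _ _).1 ((mem_forms.1 hF).2 k) 0 (by simpa using hk)
  rw [← constCoeff_tau]
  exact h1

theorem exists_kappas {A : Finset (Fin n)} (hA : ∀ k ∈ A, u k = 1)
    (hS : Function.Surjective (ev u P d))
    (E : MvPolynomial (Fin 3) K →ₗ[K] K) (h0 : ∀ F ∈ forms u P d, E F = 0) :
    ∃ κ : Fin n → K, (∀ k ∈ A, ∀ H ∈ forms (Function.update u k 0) P d,
        E H = κ k * eval (![P k 0, P k 1, 1] : Fin 3 → K) H) ∧
      ∀ H ∈ forms (low u A) P d, E H = ∑ k ∈ A, κ k * eval (![P k 0, P k 1, 1] : Fin 3 → K) H := by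
  classical
  have hex : ∀ k, ∃ κ : K, k ∈ A → ∀ H ∈ forms (Function.update u k 0) P d,
      E H = κ * eval (![P k 0, P k 1, 1] : Fin 3 → K) H := by
    intro k
    by_cases hk : k ∈ A
    · obtain ⟨κ, hκ⟩ := exists_kappa (hA k hk) hS E h0
      exact ⟨κ, fun _ => hκ⟩
    · exact ⟨0, fun h => absurd h hk⟩
  choose κ hκ using hex
  refine ⟨κ, hκ, fun H hH => ?_⟩
  choose V hV using fun k => exists_ev (![P k 0, P k 1, 1] : Fin 3 → K)
  have h1 := step4E (S := A) hS (E - ∑ k ∈ A, κ k • V k) (fun F hF => by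
    rw [LinearMap.sub_apply, h0 F hF, LinearMap.sum_apply, Finset.sum_eq_zero, sub_zero]
    intro k hk
    rw [LinearMap.smul_apply, hV, ev_zero (by rw [hA k hk]; exact one_pos) hF, smul_zero])
    (fun k hk H' hH' => by
      have hk1 := hA k hk
      rw [hk1] at hH'
      rw [LinearMap.sub_apply, hκ k hk H' hH', LinearMap.sum_apply, Finset.sum_eq_single k]
      · rw [LinearMap.smul_apply, hV, smul_eq_mul, sub_self]
      · intro j hj hjk
        rw [LinearMap.smul_apply, hV, ev_zero (by
          rw [Function.update_of_ne hjk, hA j hj]; exact one_pos) hH', smul_zero]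
      · intro h
        exact absurd hk h) H hH
  rw [LinearMap.sub_apply, LinearMap.sum_apply, sub_eq_zero] at h1
  rw [h1]
  exact Finset.sum_congr rfl fun k _ => by rw [LinearMap.smul_apply, hV, smul_eq_mul]

/-- Members with a prescribed linear form at one of the points. -/
theorem lift_two {A : Finset (Fin n)} (hA : ∀ k ∈ A, u k = 1)
    (h2 : Function.Surjective (ev (fun i => if i ∈ A then 2 else u i) P d)) {k : Fin n}
    (hk : k ∈ A) (a : Fin 2) :
    ∃ F ∈ forms u P d, homogeneousComponent 1 (tau (P k) F) = X a ∧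
      ∀ j ∈ A, j ≠ k → homogeneousComponent 1 (tau (P j) F) = 0 := by
  classical
  obtain ⟨F, hF, hF'⟩ := lift (L := K)
    (w := Function.update (fun i => if i ∈ A then 2 else u i) k 1) (P := P) (d := d) (k := k)
    (m := 1) (by rw [Function.update_self]) (by
      have e : Function.update (Function.update (fun i => if i ∈ A then 2 else u i) k 1) k (1 + 1) =
          fun i => if i ∈ A then 2 else u i := by
        funext i
        by_cases hi : i = k
        · subst hi
          rw [Function.update_self, if_pos hk]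
        · rw [Function.update_of_ne hi, Function.update_of_ne hi]
      rw [e]
      exact h2) (h := X a) (isHomogeneous_X _ _)
  refine ⟨F, forms_le (fun i => ?_) hF, hF', fun j hj hjk => ?_⟩
  · by_cases hi : i = k
    · subst hi
      rw [Function.update_self, hA i hk]
    · rw [Function.update_of_ne hi]
      by_cases hiA : i ∈ A
      · rw [if_pos hiA, hA i hiA]
        omega
      · rw [if_neg hiA]
  · have h3 := (mem_forms.1 hF).2 j
    rw [Function.update_of_ne hjk, if_pos hj] at h3
    rw [mem_pow_idealOfVars_iff'] at h3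
    ext s
    rw [coeff_homogeneousComponent, coeff_zero]
    split_ifs with h4
    · exact h3 s (by omega)
    · rfl

end kappa

/-- **Base points.** The system `u`, with generic simple points in `A`, has no base points besides the assigned
points, if the conditions of the system without these points are independent in the preceding degree, where it is not
empty, and if the conditions with double points in `A` are independent. -/
theorem bpf_two {K : Type} [Field K] [CharZero K] {n e : ℕ} {u : Fin n → ℕ}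
    {P : Fin n → Fin 2 → K}
    (hP : AlgebraicIndependent ℚ (fun ij : Fin n × Fin 2 => P ij.1 ij.2)) {A : Finset (Fin n)}
    (hA : ∀ k ∈ A, u k = 1)
    (h2 : Function.Surjective (ev (fun i => if i ∈ A then 2 else u i) P (e + 1)))
    (h1 : Function.Surjective (ev (low u A) P e)) {F0 : MvPolynomial (Fin 3) K}
    (hF0 : F0 ∈ forms (low u A) P e) (hne : F0 ≠ 0) (q : Fin 3 → K) (hq : q ≠ 0)
    (hqP : ∀ i, ¬ ∃ c : K, q = c • (![P i 0, P i 1, 1] : Fin 3 → K)) :
    ∃ G ∈ forms u P (e + 1), eval q G ≠ 0 := by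
  classical
  by_contra hcon
  push Not at hcon
  have hS : Function.Surjective (ev u P (e + 1)) := surj_mono (fun i => by
    by_cases hi : i ∈ A
    · rw [if_pos hi, hA i hi]
      omega
    · rw [if_neg hi]) h2
  obtain ⟨E, hE⟩ := exists_ev q
  obtain ⟨κ, hκ, hκs⟩ := exists_kappas hA hS E (fun F hF => by rw [hE]; exact hcon F hF)
  -- the derivatives
  have hder : ∀ k ∈ A, ∀ D : Fin 2 → Derivation ℚ K K,
      (∀ a i b, D a (P i b) = if i = k ∧ b = a then 1 else 0) → ∀ F ∈ forms u P (e + 1),
      (∀ b, eval q (pderiv b F) = 0) → ∀ c : Fin 2 → K,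
      homogeneousComponent 1 (tau (P k) F) = ∑ a, c a • X a → κ k ≠ 0 → ∀ a, c a = 0 := by
    intro k hk D hD F hF hFq c hc hκk a
    obtain ⟨m1, m2⟩ := ev_move (hA k hk) hD hF hc a
    have m3 := hκ k hk _ m1
    have m4 := der_eval (D a) q F
    rw [hcon F hF, map_zero, Finset.sum_eq_zero (fun b _ => by rw [hFq b, zero_mul]), add_zero]
      at m4
    rw [hE, ← m4, m2] at m3
    have m5 := (mul_eq_zero.1 m3.symm).resolve_left hκk
    linear_combination -m5
  by_cases hk : ∃ k ∈ A, κ k ≠ 0
  · obtain ⟨k, hkA, hκk⟩ := hk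
    by_cases hl : ∃ l ∈ A, l ≠ k ∧ κ l ≠ 0
    · obtain ⟨l, hlA, hlk, hκl⟩ := hl
      obtain ⟨F1, hF1, hF1k, hF1A⟩ := lift_two hA h2 hkA 0
      obtain ⟨F2, hF2, hF2k, hF2A⟩ := lift_two hA h2 hkA 1
      obtain ⟨F3, hF3, hF3l, hF3A⟩ := lift_two hA h2 hlA 0
      have hFm : ∀ i, (![F1, F2, F3] : Fin 3 → MvPolynomial (Fin 3) K) i ∈ forms u P (e + 1) := by
        intro i
        fin_cases i
        · exact hF1
        · exact hF2
        · exact hF3
      obtain ⟨M, hM⟩ : ∃ M : Matrix (Fin 3) (Fin 3) K,
        M = Matrix.of fun i b => eval q (pderiv b ((![F1, F2, F3] : Fin 3 →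
          MvPolynomial (Fin 3) K) i)) := ⟨_, rfl⟩
      have hMq : M.mulVec q = 0 := by
        funext i
        have h3 := euler (mem_forms.1 (hFm i)).1 (hcon _ (hFm i))
        rw [hM, Matrix.mulVec, dotProduct, Pi.zero_apply, ← h3]
        exact Finset.sum_congr rfl fun b _ => by rw [Matrix.of_apply, mul_comm]
      have hdet : M.det = 0 := Matrix.exists_mulVec_eq_zero_iff.1 ⟨q, hq, hMq⟩
      obtain ⟨x, hx, hxM⟩ := Matrix.exists_vecMul_eq_zero_iff.2 hdet
      obtain ⟨F, hF⟩ : ∃ F, F = ∑ i, x i • (![F1, F2, F3] : Fin 3 →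
        MvPolynomial (Fin 3) K) i := ⟨_, rfl⟩
      have hFu : F ∈ forms u P (e + 1) := by
        rw [hF]
        exact Submodule.sum_mem _ fun i _ => Submodule.smul_mem _ _ (hFm i)
      have hFq : ∀ b, eval q (pderiv b F) = 0 := by
        intro b
        have h3 := congrFun hxM b
        rw [Matrix.vecMul, dotProduct, Pi.zero_apply] at h3
        rw [hF, map_sum, map_sum, ← h3, hM]
        refine Finset.sum_congr rfl fun i _ => ?_
        rw [Derivation.map_smul, smul_eval, Matrix.of_apply]
      have hFk : homogeneousComponent 1 (tau (P k) F) = ∑ a, (![x 0, x 1] : Fin 2 → K) a • X a := by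
        rw [hF, Fin.sum_univ_three, map_add, map_add, map_add, map_add, map_smul, map_smul,
          map_smul, map_smul, map_smul, map_smul, Fin.sum_univ_two]
        show x 0 • homogeneousComponent 1 (tau (P k) F1) +
          x 1 • homogeneousComponent 1 (tau (P k) F2) +
          x 2 • homogeneousComponent 1 (tau (P k) F3) = _
        rw [hF1k, hF2k, hF3A k hkA (Ne.symm hlk), smul_zero, add_zero]
        rfl
      have hFl : homogeneousComponent 1 (tau (P l) F) = ∑ a, (![x 2, 0] : Fin 2 → K) a • X a := by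
        rw [hF, Fin.sum_univ_three, map_add, map_add, map_add, map_add, map_smul, map_smul,
          map_smul, map_smul, map_smul, map_smul, Fin.sum_univ_two]
        show x 0 • homogeneousComponent 1 (tau (P l) F1) +
          x 1 • homogeneousComponent 1 (tau (P l) F2) +
          x 2 • homogeneousComponent 1 (tau (P l) F3) = _
        rw [hF1A l hlA hlk, hF2A l hlA hlk, hF3l, smul_zero, smul_zero, add_zero, zero_add]
        simp
      obtain ⟨Dk, hDk⟩ := exists_move hP k
      obtain ⟨Dl, hDl⟩ := exists_move hP l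
      have c1 := hder k hkA Dk hDk F hFu hFq _ hFk hκk
      have c2 := hder l hlA Dl hDl F hFu hFq _ hFl hκl
      apply hx
      funext i
      fin_cases i
      · exact c1 0
      · exact c1 1
      · exact c2 0
    · push Not at hl
      have hu0 : low u A k = 0 := by
        unfold low
        rw [if_pos hkA, hA k hkA]
      obtain ⟨F1, hF1, hF1k⟩ := generic_nonbase hP hu0 hF0 hne
      have hX : ∀ c : Fin 3, X c * F1 ∈ forms (low u A) P (e + 1) := by
        intro c
        obtain ⟨a1, a2⟩ := mem_forms.1 hF1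
        refine mem_forms.2 ⟨?_, fun i => ?_⟩
        · have := (isHomogeneous_X K c).mul a1
          rwa [add_comm] at this
        · rw [map_mul]
          exact Ideal.mul_mem_left _ _ (a2 i)
      have hEX : ∀ c : Fin 3, q c * eval q F1 =
          κ k * ((![P k 0, P k 1, 1] : Fin 3 → K) c * eval (![P k 0, P k 1, 1] : Fin 3 → K) F1) := by
        intro c
        have h3 := hκs _ (hX c)
        rw [hE, Finset.sum_eq_single k] at h3
        · rw [map_mul, map_mul, eval_X, eval_X] at h3
          exact h3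
        · intro j hj hjk
          rw [hl j hj hjk, zero_mul]
        · intro h
          exact absurd hkA h
      have h3 := hEX 2
      have h4 : (![P k 0, P k 1, 1] : Fin 3 → K) 2 = 1 := rfl
      rw [h4, one_mul] at h3
      have h5 : eval q F1 ≠ 0 := by
        intro h6
        rw [h6, mul_zero] at h3
        exact mul_ne_zero hκk hF1k h3.symm
      refine hqP k ⟨q 2, funext fun c => ?_⟩
      have h6 := hEX c
      rw [Pi.smul_apply, smul_eq_mul]
      refine mul_right_cancel₀ h5 ?_
      rw [h6]
      linear_combination -(![P k 0, P k 1, 1] : Fin 3 → K) c * h3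
  · push Not at hk
    obtain ⟨G, hG, hG'⟩ := bpf h1 q hq (fun i _ => hqP i)
    apply hG'
    rw [← hE, hκs G hG]
    exact Finset.sum_eq_zero fun k hkA => by rw [hk k hkA, zero_mul]

/-- **Directions at the other points.** -/
theorem free_two {K : Type} [Field K] [CharZero K] {n e : ℕ} {u : Fin n → ℕ}
    {P : Fin n → Fin 2 → K}
    (hP : AlgebraicIndependent ℚ (fun ij : Fin n × Fin 2 => P ij.1 ij.2)) {A : Finset (Fin n)}
    (hA : ∀ k ∈ A, u k = 1)
    (h2 : Function.Surjective (ev (fun i => if i ∈ A then 2 else u i) P (e + 1)))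
    (h1 : Function.Surjective (ev (low u A) P e)) {F0 : MvPolynomial (Fin 3) K}
    (hF0 : F0 ∈ forms (low u A) P e) (hne : F0 ≠ 0) {i : Fin n} (hi : i ∉ A) (z : Fin 2 → K)
    (hz : z ≠ 0) :
    ∃ G ∈ forms u P (e + 1), eval z (homogeneousComponent (u i) (tau (P i) G)) ≠ 0 := by
  classical
  by_contra hcon
  push Not at hcon
  have hS : Function.Surjective (ev u P (e + 1)) := surj_mono (fun i => by
    by_cases hi : i ∈ A
    · rw [if_pos hi, hA i hi]
      omega
    · rw [if_neg hi]) h2
  obtain ⟨E, hE⟩ := exists_lead (P i) (u i) z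
  obtain ⟨κ, hκ, hκs⟩ := exists_kappas hA hS E (fun F hF => by rw [hE]; exact hcon F hF)
  have hk0 : ∀ k ∈ A, κ k = 0 := by
    intro k hk
    by_contra hκk
    obtain ⟨D, hD⟩ := exists_move hP k
    have hik : i ≠ k := fun h => hi (h ▸ hk)
    have key : ∀ F ∈ forms u P (e + 1), ∃ θ : K, ∀ (c : Fin 2 → K),
        homogeneousComponent 1 (tau (P k) F) = ∑ a, c a • X a →
        ∀ a, κ k * c a = (z 0 * D a (z 1) - z 1 * D a (z 0)) * θ := by
      intro F hF
      obtain ⟨θ, -, hθ⟩ := grad_two z z hz (homogeneousComponent_isHomogeneous (u i)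
        (tau (P i) F)) (hcon F hF)
      refine ⟨θ, fun c hc a => ?_⟩
      obtain ⟨m1, m2⟩ := ev_move (hA k hk) hD hF hc a
      have m3 := hκ k hk _ m1
      rw [hE, lead_der hik (D a) (hD a) (u i) z F (hcon F hF), hθ (fun b => D a (z b)), m2] at m3
      linear_combination m3
    obtain ⟨F1, hF1, hF1k, -⟩ := lift_two hA h2 hk 0
    obtain ⟨F2, hF2, hF2k, -⟩ := lift_two hA h2 hk 1
    obtain ⟨θ1, hθ1⟩ := key F1 hF1
    obtain ⟨θ2, hθ2⟩ := key F2 hF2
    have e1 : homogeneousComponent 1 (tau (P k) F1) = ∑ a, (![1, 0] : Fin 2 → K) a • X a := by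
      rw [hF1k, Fin.sum_univ_two]
      simp
    have e2 : homogeneousComponent 1 (tau (P k) F2) = ∑ a, (![0, 1] : Fin 2 → K) a • X a := by
      rw [hF2k, Fin.sum_univ_two]
      simp
    have a1 := hθ1 _ e1 0
    have a2 := hθ1 _ e1 1
    have b1 := hθ2 _ e2 0
    have b2 := hθ2 _ e2 1
    simp only [Matrix.cons_val_zero, Matrix.cons_val_one, mul_one, mul_zero] at a1 a2 b1 b2
    have hs1 : (z 0 * D 1 (z 1) - z 1 * D 1 (z 0)) ≠ 0 := fun h => by
      rw [h, zero_mul] at b2
      exact hκk b2
    have hθ : θ1 = 0 := (mul_eq_zero.1 a2.symm).resolve_left hs1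
    rw [hθ, mul_zero] at a1
    exact hκk a1
  have hall : ∀ H ∈ forms (low u A) P (e + 1), E H = 0 := by
    intro H hH
    rw [hκs H hH]
    exact Finset.sum_eq_zero fun k hk => by rw [hk0 k hk, zero_mul]
  have hui : low u A i = u i := by
    unfold low
    rw [if_neg hi]
  rcases Nat.eq_zero_or_pos (u i) with h0 | h0
  · have hX : X 2 * F0 ∈ forms (low u A) P (e + 1) := by
      obtain ⟨a1, a2⟩ := mem_forms.1 hF0
      refine mem_forms.2 ⟨?_, fun i => ?_⟩
      · have := (isHomogeneous_X K (2 : Fin 3)).mul a1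
        rwa [add_comm] at this
      · rw [map_mul]
        exact Ideal.mul_mem_left _ _ (a2 i)
    obtain ⟨G, hG, hG'⟩ := generic_nonbase hP (k := i) (by rw [hui, h0]) hX
      (mul_ne_zero (X_ne_zero _) hne)
    apply hG'
    have h3 := hall G hG
    rw [hE, h0, hc_zero, eval_C] at h3
    exact h3
  · obtain ⟨a, ha⟩ : ∃ a, z a ≠ 0 := by
      by_contra hcon2
      push Not at hcon2
      exact hz (funext hcon2)
    obtain ⟨G, hG, hG'⟩ := lead h1 i (by rw [hui]; exact h0) a
    have h3 := hall G hG
    rw [hE] at h3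
    rw [hui] at hG'
    rw [hG', map_pow, eval_X] at h3
    exact pow_ne_zero _ ha h3

end Pool.Agent.K3h98.RL
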