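import Pool.Agent.K3h98.RL.Node
import Pool.Agent.K3h98.RL.Two

set_option autoImplicit false

/-!
# Double and simple points
-/

namespace Pool.Agent.K3h98.RL

open MvPolynomial Pool.Agent.H248R5 Pool.Agent.H248R6

/-- The multiplicities larger than two. -/
def big {n : ℕ} (w : Fin n → ℕ) : Fin n → ℕ := fun i => if 2 < w i then w i else 0

theorem big_le {n : ℕ} (w : Fin n → ℕ) (i : Fin n) : big w i ≤ w i := by
  unfold big
  split_ifs <;> omega

/-- The conditions at the points of multiplicity at most two. -/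
theorem count_le {K : Type} [Field K] {n d : ℕ} (w : Fin n → ℕ) (P : Fin n → Fin 2 → K) :
    Module.finrank K ↥(forms (big w) P d) ≤ Module.finrank K ↥(forms w P d) +
      ∑ i, if 2 < w i then 0 else (w i + 1).choose 2 := by
  classical
  have hfin := forms_finite (big w) P d
  have hfin2 := forms_finite w P d
  obtain ⟨w', hw'⟩ : ∃ w' : Fin n → ℕ, w' = fun i => if 2 < w i then 0 else w i := ⟨_, rfl⟩
  obtain ⟨φ, hφ⟩ : ∃ φ : ↥(forms (big w) P d) →ₗ[K] (∀ i, Quo K (w' i)),
      φ = (ev w' P d) ∘ₗ (Submodule.inclusion (inf_le_left :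
        forms (big w) P d ≤ homogeneousSubmodule (Fin 3) K d)) := ⟨_, rfl⟩
  have hq : ∀ i, Module.Finite K (Quo K (w' i)) := fun i => quo_finite (w' i)
  have h1 := LinearMap.finrank_range_add_finrank_ker φ
  have h2 : Module.finrank K ↥(LinearMap.ker φ) ≤ Module.finrank K ↥(forms w P d) := by
    rw [LinearEquiv.finrank_eq (Submodule.equivSubtypeMap _ (LinearMap.ker φ))]
    refine Submodule.finrank_mono ?_
    rintro F ⟨⟨G, hG⟩, hGk, rfl⟩
    have hGk' : φ ⟨G, hG⟩ = 0 := hGk
    obtain ⟨a1, a2⟩ := mem_forms.1 hG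
    refine mem_forms.2 ⟨a1, fun i => ?_⟩
    by_cases hi : 2 < w i
    · have h3 := a2 i
      unfold big at h3
      rwa [if_pos hi] at h3
    · rw [hφ] at hGk'
      have h3 := congrFun hGk' i
      have h4 := Ideal.Quotient.eq_zero_iff_mem.1 h3
      have h5 : w' i = w i := by rw [hw']; exact if_neg hi
      rw [h5] at h4
      exact h4
  have h3 : Module.finrank K ↥(LinearMap.range φ) ≤ ∑ i, (w' i + 1).choose 2 := by
    refine (Submodule.finrank_le _).trans ?_
    rw [Module.finrank_pi_fintype]
    exact Finset.sum_le_sum fun i _ => finrank_quo_le (w' i)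
  have h4 : ∑ i, (w' i + 1).choose 2 = ∑ i, if 2 < w i then 0 else (w i + 1).choose 2 := by
    refine Finset.sum_congr rfl fun i _ => ?_
    rw [hw']
    by_cases hi : 2 < w i
    · simp [hi]
    · simp [hi]
  omega

/-- **The dimension of a system with a reduced member**: the points of multiplicity at most two impose independent
conditions on the system defined by the others. -/
theorem reduced_dim {K : Type} [Field K] [CharZero K] [IsAlgClosed K] {n d : ℕ}
    {P : Fin n → Fin 2 → K}
    (hP : AlgebraicIndependent ℚ (fun ij : Fin n × Fin 2 => P ij.1 ij.2)) {w : Fin n → ℕ}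
    {f : MvPolynomial (Fin 3) K} (hf : f ∈ forms w P d) (hsq : Squarefree f) :
    Module.finrank K ↥(forms w P d) + ∑ i, (if 2 < w i then 0 else (w i + 1).choose 2) =
      Module.finrank K ↥(forms (big w) P d) := by
  classical
  refine le_antisymm ?_ (count_le w P)
  rw [← W609.CR.vs_eq_forms] at hf
  have h1 := small_indep hP hf hsq (Finset.univ.filter fun i => 2 < w i) (fun j hj => by
    by_contra hcon
    exact hj (Finset.mem_filter.2 ⟨Finset.mem_univ _, by omega⟩))
  rw [W609.CR.vs_eq_forms, W609.CR.vs_eq_forms] at h1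
  have e1 : (fun j => if j ∈ Finset.univ.filter (fun i => 2 < w i) then w j else 0) = big w := by
    funext j
    unfold big
    simp
  rw [e1] at h1
  refine le_trans (le_of_eq ?_) h1
  congr 1
  refine Finset.sum_congr rfl fun i _ => ?_
  simp

/-- **Smoothness of the general member**, with any number of double and simple points. -/
theorem smooth_big {K : Type} [Field K] [CharZero K] [IsAlgClosed K] {n e : ℕ}
    {P : Fin n → Fin 2 → K}
    (hP : AlgebraicIndependent ℚ (fun ij : Fin n × Fin 2 => P ij.1 ij.2)) {w : Fin n → ℕ}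
    {f : MvPolynomial (Fin 3) K} (hf : f ∈ forms w P (e + 1)) (hsq : Squarefree f)
    (h1 : Function.Surjective (ev (big w) P e)) {F0 : MvPolynomial (Fin 3) K}
    (hF0 : F0 ∈ forms (big w) P e) (hne : F0 ≠ 0) :
    Module.finrank K ↥(forms w P (e + 1)) + ∑ i, (w i + 1).choose 2 = (e + 3).choose 2 ∧
      GeneralMember (forms w P (e + 1)) (SmoothMember w P) := by
  classical
  have hd := reduced_dim hP hf hsq
  have hb := finrank_of_surj (surj_succ h1)
  have hsum : ∑ i, (w i + 1).choose 2 = ∑ i, (big w i + 1).choose 2 +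
      ∑ i, (if 2 < w i then 0 else (w i + 1).choose 2) := by
    rw [← Finset.sum_add_distrib]
    refine Finset.sum_congr rfl fun i _ => ?_
    unfold big
    by_cases hi : 2 < w i
    · rw [if_pos hi, if_pos hi, add_zero]
    · rw [if_neg hi, if_neg hi]
      simp
  have e3 : e + 1 + 2 = e + 3 := rfl
  rw [e3] at hb
  have hdim : Module.finrank K ↥(forms w P (e + 1)) + ∑ i, (w i + 1).choose 2 =
      (e + 3).choose 2 := by
    rw [hsum]
    omega
  refine ⟨hdim, ?_⟩
  have hsurj : Function.Surjective (ev w P (e + 1)) := surj_of_ind hdim.le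
  obtain ⟨S, hS⟩ : ∃ S : Finset (Fin n), S = Finset.univ.filter fun i => 0 < w i ∧ w i ≤ 2 :=
    ⟨_, rfl⟩
  obtain ⟨A, hA⟩ : ∃ A : Finset (Fin n), A = Finset.univ.filter fun i => w i = 2 := ⟨_, rfl⟩
  have hSm : ∀ i, i ∈ S ↔ 0 < w i ∧ w i ≤ 2 := fun i => by rw [hS]; simp
  have hAm : ∀ i, i ∈ A ↔ w i = 2 := fun i => by rw [hA]; simp
  have hAS : ∀ i, i ∈ A → i ∈ S := fun i hi => by
    rw [hSm]
    rw [hAm] at hi
    omega
  have hu1 : ∀ k ∈ A, low w S k = 1 := by
    intro k hk
    unfold low
    rw [if_pos (hAS k hk)]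
    rw [hAm] at hk
    omega
  have huA : low (low w S) A = big w := by
    funext i
    unfold low big
    by_cases hiA : i ∈ A
    · have h2 := (hAm i).1 hiA
      rw [if_pos hiA, if_pos (hAS i hiA), if_neg (by omega), h2]
    · rw [if_neg hiA]
      by_cases hiS : i ∈ S
      · have h2 := (hSm i).1 hiS
        have h3 : w i ≠ 2 := fun h => hiA ((hAm i).2 h)
        rw [if_pos hiS, if_neg (by omega)]
        omega
      · rw [if_neg hiS]
        by_cases h2 : 2 < w i
        · rw [if_pos h2]
        · rw [if_neg h2]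
          by_contra h3
          exact hiS ((hSm i).2 ⟨by omega, by omega⟩)
  have h2 : Function.Surjective (ev (fun i => if i ∈ A then 2 else low w S i) P (e + 1)) := by
    refine surj_mono (fun i => ?_) hsurj
    by_cases hi : i ∈ A
    · rw [if_pos hi, (hAm i).1 hi]
    · rw [if_neg hi]
      unfold low
      split_ifs <;> omega
  rw [← huA] at h1 hF0
  refine general_main hP S hsurj (fun k hk => ?_) (fun q hq hqP => ?_) fun i hi v hv => ?_
  · have h3 := (hSm k).1 hk
    exact ⟨h3.1, Or.inr (general_spread hP (by omega) hf hsq)⟩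
  · exact bpf_two hP hu1 h2 h1 hF0 hne q hq hqP
  · have h3 : low w S i = w i := by
      unfold low
      rw [if_neg hi]
    rw [← h3]
    exact free_two hP hu1 h2 h1 hF0 hne (fun h => hi (hAS i h)) v hv

end Pool.Agent.K3h98.RL
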